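import Pool.Agent.W_be22fd_h77.Good

/-!
# Measurable families of tests (definition)
-/

open Polynomial Real MeasureTheory

namespace Pool.Agent.Be22.Ker

/-- normalised arc length on `(0, 2π]` -/
noncomputable def arc : Measure ℝ := ENNReal.ofReal (2 * π)⁻¹ • volume.restrict (Set.Ioc 0 (2 * π))

/-- A measurable family of tests: for `x ∈ [a, b]` the law of `Z (x, ·)` is a test at the real point
`x` with potential difference `φ x`. -/
structure Fam {Ω : Type} [MeasurableSpace Ω] (P : Measure Ω) (a b : ℝ) (Z : ℝ × Ω → ℂ)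
    (φ : ℝ → ℂ → ℝ) : Prop where
  prob : IsProbabilityMeasure P
  meas : Measurable Z
  bdd : ∃ R : ℝ, ∀ x ∈ Set.Icc a b, ∀ ω, ‖Z (x, ω)‖ ≤ R
  ne : ∀ x ∈ Set.Icc a b, ∀ y, P {ω | Z (x, ω) = y} = 0
  int : ∀ x ∈ Set.Icc a b, ∀ y, Integrable (fun ω => log ‖Z (x, ω) - y‖) P
  pot : ∀ x ∈ Set.Icc a b, ∀ y : ℂ, y ≠ x → ∫ ω, log ‖Z (x, ω) - y‖ ∂P = log ‖(x : ℂ) - y‖ + φ x y
  nonneg : ∀ x y, 0 ≤ φ x y

theorem arc_prob : IsProbabilityMeasure arc := by
  constructor
  rw [arc, Measure.smul_apply, Measure.restrict_apply_univ, Real.volume_Ioc, sub_zero, smul_eq_mul,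
    ← ENNReal.ofReal_mul (by positivity), inv_mul_cancel₀ two_pi_pos.ne', ENNReal.ofReal_one]

theorem integral_arc (f : ℂ → ℝ) :
    ∫ θ, f (circleMap 0 1 θ) ∂arc = circleAverage f 0 1 := by
  rw [arc, integral_smul_measure, ENNReal.toReal_ofReal (by positivity), circleAverage_def,
    intervalIntegral.integral_of_le two_pi_pos.le]

theorem integrable_arc {f : ℂ → ℝ} (hf : CircleIntegrable f 0 1) :
    Integrable (fun θ => f (circleMap 0 1 θ)) arc := by
  rw [CircleIntegrable, intervalIntegrable_iff_integrableOn_Ioc_of_le two_pi_pos.le] at hf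
  exact Integrable.smul_measure hf ENNReal.ofReal_ne_top

/-- a countable set of values of `c` is a null set -/
theorem arc_null {S : Set ℂ} (hS : S.Countable) : arc {θ | circleMap 0 1 θ ∈ S} = 0 := by
  have h0 : volume {θ : ℝ | circleMap 0 1 θ ∈ S} = 0 :=
    (hS.preimage_circleMap 0 one_ne_zero).measure_zero _
  rw [arc, Measure.smul_apply]
  have : volume.restrict (Set.Ioc 0 (2 * π)) {θ : ℝ | circleMap 0 1 θ ∈ S} = 0 :=
    le_antisymm ((Measure.restrict_apply_le _ _).trans h0.le) zero_le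
  rw [this, smul_zero]

end Pool.Agent.Be22.Ker
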