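import Mathlib

/-!
# Phase averages

For complex `a, b` and real `w ≥ 0`, the average over unit `c` of `log max(‖a + c b‖, w)` is at least
`log max(‖a‖, ‖b‖, w)`; and a choice of one phase `c` for a whole (finite, bounded) measure.
-/

open Real MeasureTheory

namespace Pool.Agent.Be22.Ker

/-- If two functions agree outside a finite set then their circle averages agree. -/
theorem circleAverage_congr_finite' {f g : ℂ → ℝ} {c : ℂ} {R : ℝ} (hR : R ≠ 0) (F : Set ℂ)
    (hF : F.Finite) (h : ∀ w, w ∉ F → f w = g w) : circleAverage f c R = circleAverage g c R := by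
  apply circleAverage_congr_codiscreteWithin _ hR
  filter_upwards [compl_finite_mem_codiscreteWithin (s := Metric.sphere c |R|) hF] with w hw
  exact h w hw

theorem circleIntegrable_log_add_mul (a b : ℂ) :
    CircleIntegrable (fun w => log ‖a + w * b‖) 0 1 := by
  apply MeromorphicOn.circleIntegrable_log_norm (f := fun w => a + w * b)
  intro z hz
  fun_prop

/-- Circle average of `log ‖a + c b‖` over unit `c`. -/
theorem circleAverage_log_add_mul (a b : ℂ) (hab : a ≠ 0 ∨ b ≠ 0) :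
    circleAverage (fun c => log ‖a + c * b‖) 0 1 = log (max ‖a‖ ‖b‖) := by
  by_cases hb : b = 0
  · subst hb
    have : (fun c : ℂ => log ‖a + c * 0‖) = fun _ => log ‖a‖ := by simp
    rw [this, circleAverage_const]
    simp
  have h2 : circleAverage (fun c => log ‖a + c * b‖) 0 1
      = circleAverage (fun w => log ‖b‖ + log ‖w - (-(a / b))‖) 0 1 := by
    apply circleAverage_congr_finite' one_ne_zero {-(a / b)} (Set.finite_singleton _)
    intro w hw
    have hne : w - (-(a / b)) ≠ 0 := fun h0 => hw (sub_eq_zero.1 h0)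
    have : a + w * b = b * (w - (-(a / b))) := by field_simp; ring
    rw [this, norm_mul, log_mul (by simpa using hb) (by simpa using hne)]
  have hbn : 0 < ‖b‖ := norm_pos_iff.2 hb
  rw [h2, circleAverage_fun_add (circleIntegrable_const _ _ _)
    (circleIntegrable_log_norm_sub_const 1), circleAverage_const,
    circleAverage_log_norm_sub_const_eq_posLog, norm_neg, norm_div]
  by_cases h : ‖a‖ ≤ ‖b‖
  · rw [max_eq_right h]
    have : log⁺ (‖a‖ / ‖b‖) = 0 := by
      rw [posLog_eq_zero_iff, abs_of_nonneg (by positivity)]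
      exact div_le_one_of_le₀ h hbn.le
    rw [this, add_zero]
  · rw [not_le] at h
    have ha : 0 < ‖a‖ := hbn.trans h
    rw [max_eq_left h.le, posLog_eq_log, log_div ha.ne' hbn.ne']
    · ring
    · rw [abs_of_nonneg (by positivity), le_div_iff₀ hbn]
      linarith

/-- the kernel `F(θ, a, b, w) = log max(‖a + e^{iθ} b‖, w)` -/
noncomputable def Fk (a b : ℂ) (w : ℝ) (θ : ℝ) : ℝ := log (max ‖a + circleMap 0 1 θ * b‖ w)

theorem Fk_posPart_le {a b : ℂ} {w C : ℝ} (hw : 0 ≤ w) (hC : ‖a‖ + ‖b‖ + w ≤ C) (θ : ℝ) :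
    (Fk a b w θ)⁺ ≤ log⁺ C := by
  have hc : ‖circleMap 0 1 θ‖ = 1 := by simp
  have h1 : max ‖a + circleMap 0 1 θ * b‖ w ≤ C := by
    apply max_le
    · calc ‖a + circleMap 0 1 θ * b‖ ≤ ‖a‖ + ‖circleMap 0 1 θ * b‖ := norm_add_le _ _
        _ = ‖a‖ + ‖b‖ := by rw [norm_mul, hc, one_mul]
        _ ≤ C := by linarith
    · have := norm_nonneg a; have := norm_nonneg b; linarith
  have h0 : 0 ≤ max ‖a + circleMap 0 1 θ * b‖ w := le_max_of_le_right hw
  rw [Fk, posPart_def]
  have : (log (max ‖a + circleMap 0 1 θ * b‖ w) ⊔ 0) = log⁺ (max ‖a + circleMap 0 1 θ * b‖ w) := by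
    rw [max_comm]; rfl
  rw [this]
  exact posLog_le_posLog h0 h1

theorem Fk_measurable (a b : ℂ) (w : ℝ) : Measurable (Fk a b w) := by
  unfold Fk
  fun_prop

theorem Fk_le {a b : ℂ} {w C : ℝ} (hw : 0 ≤ w) (hC : ‖a‖ + ‖b‖ + w ≤ C) (θ : ℝ) :
    Fk a b w θ ≤ log⁺ C :=
  (le_posPart _).trans (Fk_posPart_le hw hC θ)

/-- `θ`-integrability. -/
theorem Fk_integrable {a b : ℂ} {w : ℝ} (hw : 0 ≤ w) :
    IntegrableOn (Fk a b w) (Set.Ioc 0 (2 * π)) := by
  rcases hw.eq_or_lt with h0 | h0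
  · have h1 : Fk a b w = fun θ => log ‖a + circleMap 0 1 θ * b‖ := by
      funext θ
      rw [Fk, ← h0, max_eq_left (norm_nonneg _)]
    rw [h1]
    have := circleIntegrable_log_add_mul a b
    rwa [CircleIntegrable, intervalIntegrable_iff_integrableOn_Ioc_of_le two_pi_pos.le] at this
  · set C := ‖a‖ + ‖b‖ + w with hC
    refine Integrable.mono' (g := fun _ => |log w| + log⁺ C) (by simp)
      (Fk_measurable a b w).aestronglyMeasurable (Filter.Eventually.of_forall fun θ => ?_)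
    rw [Real.norm_eq_abs, abs_le]
    constructor
    · have : log w ≤ Fk a b w θ := log_le_log h0 (le_max_right _ _)
      have h3 := neg_abs_le (log w)
      have h4 := posLog_nonneg (x := C)
      linarith
    · have := Fk_le h0.le hC.ge θ
      have h3 := abs_nonneg (log w)
      linarith

/-- The phase average dominates the log of the maximum. -/
theorem Fk_integral_ge {a b : ℂ} {w : ℝ} (hw : 0 ≤ w) (hpos : 0 < max ‖a‖ (max ‖b‖ w)) :
    2 * π * log (max ‖a‖ (max ‖b‖ w)) ≤ ∫ θ in Set.Ioc 0 (2 * π), Fk a b w θ := by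
  have hvol : (volume.restrict (Set.Ioc 0 (2 * π))).real Set.univ = 2 * π := by
    rw [measureReal_restrict_apply_univ, Real.volume_real_Ioc_of_le two_pi_pos.le]; ring
  have key1 : 0 < w → 2 * π * log w ≤ ∫ θ in Set.Ioc 0 (2 * π), Fk a b w θ := by
    intro h0
    have h1 : ∫ θ in Set.Ioc 0 (2 * π), log w ≤ ∫ θ in Set.Ioc 0 (2 * π), Fk a b w θ := by
      refine integral_mono (by simp) (Fk_integrable hw) fun θ => ?_
      exact log_le_log h0 (le_max_right _ _)
    rwa [integral_const, hvol, smul_eq_mul] at h1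
  have key2 : (a ≠ 0 ∨ b ≠ 0) →
      2 * π * log (max ‖a‖ ‖b‖) ≤ ∫ θ in Set.Ioc 0 (2 * π), Fk a b w θ := by
    intro hab
    have e1 : ∫ θ in Set.Ioc 0 (2 * π), log ‖a + circleMap 0 1 θ * b‖
        = 2 * π * log (max ‖a‖ ‖b‖) := by
      rw [← circleAverage_log_add_mul a b hab, circleAverage_def, smul_eq_mul,
        intervalIntegral.integral_of_le two_pi_pos.le, ← mul_assoc,
        mul_inv_cancel₀ two_pi_pos.ne', one_mul]
    rw [← e1]
    have hI : IntegrableOn (fun θ => log ‖a + circleMap 0 1 θ * b‖) (Set.Ioc 0 (2 * π)) := by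
      have := circleIntegrable_log_add_mul a b
      rwa [CircleIntegrable, intervalIntegrable_iff_integrableOn_Ioc_of_le two_pi_pos.le] at this
    refine integral_mono_ae hI (Fk_integrable hw) ?_
    -- `a + c b ≠ 0` for almost every `θ`
    have hne : ∀ᵐ θ ∂(volume.restrict (Set.Ioc 0 (2 * π))), a + circleMap 0 1 θ * b ≠ 0 := by
      by_cases hb : b = 0
      · refine Filter.Eventually.of_forall fun θ => ?_
        subst hb
        simpa using hab
      · have hfin : Set.Countable {θ : ℝ | circleMap 0 1 θ = -(a / b)} := by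
          have hsub : {θ : ℝ | circleMap 0 1 θ = -(a / b)} = circleMap 0 1 ⁻¹' {-(a / b)} := rfl
          rw [hsub]
          exact (Set.countable_singleton _).preimage_circleMap 0 one_ne_zero
        have h0 : volume {θ : ℝ | circleMap 0 1 θ = -(a / b)} = 0 := hfin.measure_zero _
        refine ae_restrict_of_ae ?_
        rw [ae_iff]
        refine measure_mono_null (fun θ hθ => ?_) h0
        simp only [Set.mem_ofPred_eq, not_not] at hθ ⊢
        rw [eq_neg_iff_add_eq_zero]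
        have : (circleMap 0 1 θ + a / b) * b = 0 := by field_simp; rw [add_comm]; simpa using hθ
        rcases mul_eq_zero.1 this with h | h
        · exact h
        · exact absurd h hb
    filter_upwards [hne] with θ hθ
    exact log_le_log (norm_pos_iff.2 hθ) (le_max_left _ _)
  by_cases hab : a ≠ 0 ∨ b ≠ 0
  · have hmpos : 0 < max ‖a‖ ‖b‖ := by
      rcases hab with h | h
      · exact lt_max_of_lt_left (norm_pos_iff.2 h)
      · exact lt_max_of_lt_right (norm_pos_iff.2 h)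
    rw [← max_assoc]
    rcases le_total w (max ‖a‖ ‖b‖) with h | h
    · rw [max_eq_left h]; exact key2 hab
    · rw [max_eq_right h]; exact key1 (hmpos.trans_le h)
  · rw [not_or, not_not, not_not] at hab
    obtain ⟨rfl, rfl⟩ := hab
    have h1 : max ‖(0:ℂ)‖ (max ‖(0:ℂ)‖ w) = w := by simp [hw]
    rw [h1] at hpos ⊢
    exact key1 hpos

/-- `L¹` norm of a slice -/
theorem Fk_integral_norm {a b : ℂ} {w : ℝ} (hw : 0 ≤ w) :
    ∫ θ in Set.Ioc 0 (2 * π), ‖Fk a b w θ‖
      = 2 * (∫ θ in Set.Ioc 0 (2 * π), (Fk a b w θ)⁺) - ∫ θ in Set.Ioc 0 (2 * π), Fk a b w θ :=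
  integral_abs_eq_two_mul_integral_posPart_sub_integral (Fk_integrable hw)

variable {α : Type*} [MeasurableSpace α] {μ : Measure α} [IsFiniteMeasure μ]

theorem Fk_prod_integrable {A B : α → ℂ} {w : α → ℝ} (hA : Measurable A)
    (hB : Measurable B) (hw : Measurable w) (hw0 : ∀ z, 0 ≤ w z) {C : ℝ}
    (hC : ∀ᵐ z ∂μ, ‖A z‖ + ‖B z‖ + w z ≤ C)
    (hpos : ∀ᵐ z ∂μ, 0 < max ‖A z‖ (max ‖B z‖ (w z)))
    (hu : Integrable (fun z => log (max ‖A z‖ (max ‖B z‖ (w z)))) μ) :
    Integrable (fun p : ℝ × α => Fk (A p.2) (B p.2) (w p.2) p.1)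
      ((volume.restrict (Set.Ioc 0 (2 * π))).prod μ) := by
  have hvol : (volume.restrict (Set.Ioc 0 (2 * π))).real Set.univ = 2 * π := by
    rw [measureReal_restrict_apply_univ, Real.volume_real_Ioc_of_le two_pi_pos.le]; ring
  have hmeas : Measurable (fun p : ℝ × α => Fk (A p.2) (B p.2) (w p.2) p.1) := by
    unfold Fk
    fun_prop
  rw [integrable_prod_iff' hmeas.aestronglyMeasurable]
  refine ⟨Filter.Eventually.of_forall fun z =>
    (Fk_integrable (a := A z) (b := B z) (hw0 z) : IntegrableOn _ _ _), ?_⟩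
  have hmeas2 : AEStronglyMeasurable (fun z => ∫ θ in Set.Ioc 0 (2 * π),
      ‖Fk (A z) (B z) (w z) θ‖) μ := by
    have h := (hmeas.norm.stronglyMeasurable.integral_prod_left'
      (μ := volume.restrict (Set.Ioc 0 (2 * π)))).aestronglyMeasurable (μ := μ)
    exact h
  refine Integrable.mono' (g := fun z => 2 * (2 * π * log⁺ C)
    + 2 * π * |log (max ‖A z‖ (max ‖B z‖ (w z)))|)
    ((integrable_const _).add (hu.abs.const_mul _)) hmeas2 ?_
  filter_upwards [hC, hpos] with z hCz hpz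
  rw [Real.norm_eq_abs, abs_of_nonneg (integral_nonneg fun θ => norm_nonneg _),
    Fk_integral_norm (hw0 z)]
  have h1 : ∫ θ in Set.Ioc 0 (2 * π), (Fk (A z) (B z) (w z) θ)⁺ ≤ 2 * π * log⁺ C := by
    have : ∫ θ in Set.Ioc 0 (2 * π), (Fk (A z) (B z) (w z) θ)⁺
        ≤ ∫ θ in Set.Ioc 0 (2 * π), log⁺ C := by
      refine integral_mono (Fk_integrable (hw0 z)).pos_part (by simp) fun θ => ?_
      exact Fk_posPart_le (hw0 z) hCz θ
    rwa [integral_const, hvol, smul_eq_mul] at this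
  have h2 := Fk_integral_ge (a := A z) (b := B z) (hw0 z) hpz
  have h3 : 2 * π * -|log (max ‖A z‖ (max ‖B z‖ (w z)))|
      ≤ 2 * π * log (max ‖A z‖ (max ‖B z‖ (w z))) :=
    mul_le_mul_of_nonneg_left (neg_abs_le _) two_pi_pos.le
  linarith

/-- **Choice of one phase for the whole measure.** -/
theorem phase_step {A B : α → ℂ} {w : α → ℝ} (hA : Measurable A)
    (hB : Measurable B) (hw : Measurable w) (hw0 : ∀ z, 0 ≤ w z) {C : ℝ}
    (hC : ∀ᵐ z ∂μ, ‖A z‖ + ‖B z‖ + w z ≤ C)
    (hpos : ∀ᵐ z ∂μ, 0 < max ‖A z‖ (max ‖B z‖ (w z)))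
    (hu : Integrable (fun z => log (max ‖A z‖ (max ‖B z‖ (w z)))) μ)
    (N : Set ℝ) (hN : volume N = 0) :
    ∃ θ ∉ N, ∫ z, log (max ‖A z‖ (max ‖B z‖ (w z))) ∂μ
      ≤ ∫ z, log (max ‖A z + circleMap 0 1 θ * B z‖ (w z)) ∂μ := by
  have hvol : (volume.restrict (Set.Ioc 0 (2 * π))).real Set.univ = 2 * π := by
    rw [measureReal_restrict_apply_univ, Real.volume_real_Ioc_of_le two_pi_pos.le]; ring
  have hprod := Fk_prod_integrable hA hB hw hw0 hC hpos hu
  have hg : Integrable (fun θ => ∫ z, Fk (A z) (B z) (w z) θ ∂μ)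
      (volume.restrict (Set.Ioc 0 (2 * π))) := hprod.integral_prod_left
  have hne : volume.restrict (Set.Ioc 0 (2 * π)) ≠ 0 := by
    intro h0
    rw [h0] at hvol
    simp at hvol
  have hN' : volume.restrict (Set.Ioc 0 (2 * π)) N = 0 :=
    le_antisymm ((Measure.restrict_apply_le _ _).trans hN.le) zero_le
  obtain ⟨θ, hθ, hle⟩ := exists_notMem_null_average_le hne hg hN'
  refine ⟨θ, hθ, ?_⟩
  have h1 : ∫ θ in Set.Ioc 0 (2 * π), (∫ z, Fk (A z) (B z) (w z) θ ∂μ)
      = ∫ z, (∫ θ in Set.Ioc 0 (2 * π), Fk (A z) (B z) (w z) θ) ∂μ :=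
    integral_integral_swap hprod
  have h2 : ∫ z, 2 * π * log (max ‖A z‖ (max ‖B z‖ (w z))) ∂μ
      ≤ ∫ z, (∫ θ in Set.Ioc 0 (2 * π), Fk (A z) (B z) (w z) θ) ∂μ := by
    refine integral_mono_ae (hu.const_mul _) hprod.integral_prod_right ?_
    filter_upwards [hpos] with z hpz
    exact Fk_integral_ge (hw0 z) hpz
  rw [integral_const_mul, ← h1] at h2
  rw [average_eq, hvol, smul_eq_mul] at hle
  have h3 : ∫ z, log (max ‖A z‖ (max ‖B z‖ (w z))) ∂μ
      ≤ (2 * π)⁻¹ * ∫ θ in Set.Ioc 0 (2 * π), (∫ z, Fk (A z) (B z) (w z) θ ∂μ) := by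
    rw [← div_eq_inv_mul, le_div_iff₀ two_pi_pos]
    linarith
  exact h3.trans hle

end Pool.Agent.Be22.Ker
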