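import Pool.Agent.W_be22fd_h78.Stmts
import Pool.Agent.W_be22fd_h77.Phase

/-!
# `A_log`: Poisson convolution of `log |t - ζ|`
-/

open Real MeasureTheory Set

namespace Pool.Agent.Be22.Ker

open Pool.Agent.W_be22fd_h78

/-- the Cayley substitution -/
theorem PP_eq {h : ℝ} (hh : 0 < h) (x : ℝ) (f : ℝ → ℝ) :
    PP h f x = (2 * π)⁻¹ * ∫ θ in Ioo (-π) π, f (x + h * tan (θ / 2)) := by
  have hmem : ∀ θ ∈ Ioo (-π) π, θ / 2 ∈ Ioo (-(π / 2)) (π / 2) := by
    intro θ hθ
    constructor <;> linarith [hθ.1, hθ.2]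
  have himg : (fun θ : ℝ => x + h * tan (θ / 2)) '' Ioo (-π) π = univ := by
    rw [eq_univ_iff_forall]
    intro t
    refine ⟨2 * arctan ((t - x) / h), ?_, ?_⟩
    · have h1 := arctan_lt_pi_div_two ((t - x) / h)
      have h2 := neg_pi_div_two_lt_arctan ((t - x) / h)
      constructor <;> linarith
    · simp only
      rw [mul_div_cancel_left₀ _ (two_ne_zero), tan_arctan]
      field_simp
      ring
  have hder : ∀ θ ∈ Ioo (-π) π, HasDerivWithinAt (fun θ : ℝ => x + h * tan (θ / 2))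
      (h * (1 / cos (θ / 2) ^ 2 * (1 / 2))) (Ioo (-π) π) θ := by
    intro θ hθ
    have hc : cos (θ / 2) ≠ 0 := (cos_pos_of_mem_Ioo (hmem θ hθ)).ne'
    have h0 : HasDerivAt (fun θ : ℝ => θ / 2) (1 / 2) θ := (hasDerivAt_id θ).div_const 2
    have h1 : HasDerivAt (fun θ : ℝ => tan (θ / 2)) (1 / cos (θ / 2) ^ 2 * (1 / 2)) θ :=
      HasDerivAt.comp (h₂ := tan) θ (hasDerivAt_tan hc) h0
    exact ((h1.const_mul h).const_add x).hasDerivWithinAt
  have hinj : InjOn (fun θ : ℝ => x + h * tan (θ / 2)) (Ioo (-π) π) := by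
    intro θ hθ θ' hθ' heq
    simp only [add_right_inj] at heq
    have h1 : tan (θ / 2) = tan (θ' / 2) := mul_left_cancel₀ hh.ne' heq
    have := injOn_tan (hmem θ hθ) (hmem θ' hθ') h1
    linarith
  have h1 := integral_image_eq_integral_abs_deriv_smul measurableSet_Ioo hder hinj
    (fun t => pk h (x - t) * f t)
  rw [himg, Measure.restrict_univ] at h1
  rw [PP, h1, ← integral_const_mul]
  refine setIntegral_congr_fun measurableSet_Ioo fun θ hθ => ?_
  have hc : 0 < cos (θ / 2) := cos_pos_of_mem_Ioo (hmem θ hθ)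
  have habs : |h * (1 / cos (θ / 2) ^ 2 * (1 / 2))| = h * (1 / cos (θ / 2) ^ 2 * (1 / 2)) :=
    abs_of_pos (by positivity)
  simp only [smul_eq_mul]
  rw [habs, pk, ← mul_assoc]
  congr 1
  have hs : (x - (x + h * tan (θ / 2))) ^ 2 + h ^ 2 = h ^ 2 / cos (θ / 2) ^ 2 := by
    rw [tan_eq_sin_div_cos]
    field_simp
    have h2 := sin_sq_add_cos_sq (θ / 2)
    nlinarith [h2]
  rw [hs]
  field_simp

theorem circleAverage_eq_Ioo (g : ℂ → ℝ) :
    circleAverage g 0 1 = (2 * π)⁻¹ * ∫ θ in Ioo (-π) π, g (circleMap 0 1 θ) := by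
  rw [circleAverage_eq_integral_add (-π), smul_eq_mul]
  congr 1
  have h1 := intervalIntegral.integral_comp_add_right (a := 0) (b := 2 * π)
    (fun θ => g (circleMap 0 1 θ)) (-π)
  rw [h1, intervalIntegral.integral_of_le (by linarith [pi_pos]), ← integral_Ioc_eq_integral_Ioo]
  have e1 : (0 : ℝ) + -π = -π := by ring
  have e2 : 2 * π + -π = π := by ring
  rw [e1, e2]

theorem cayley (x h θ : ℝ) (ζ : ℂ) (hc : cos (θ / 2) ≠ 0) :
    ((x + h * tan (θ / 2) : ℝ) - ζ) * (1 + circleMap 0 1 θ)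
      = (x - ζ + h * Complex.I) + circleMap 0 1 θ * (x - ζ - h * Complex.I) := by
  have h1 : circleMap 0 1 θ = (Complex.cos (θ / 2) + Complex.sin (θ / 2) * Complex.I) ^ 2 := by
    rw [circleMap, ← Complex.exp_mul_I]
    rw [← Complex.exp_nat_mul]
    simp only [zero_add, Complex.ofReal_one, one_mul]
    congr 1
    push_cast
    ring
  have h2 : Complex.cos (θ / 2) ^ 2 = 1 - Complex.sin (θ / 2) ^ 2 := by
    rw [← Complex.cos_sq_add_sin_sq (θ / 2 : ℂ)]; ring
  have hcc : Complex.cos (θ / 2) ≠ 0 := by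
    have : Complex.cos ((θ / 2 : ℝ) : ℂ) ≠ 0 := by
      rw [← Complex.ofReal_cos]
      exact_mod_cast hc
    simpa using this
  have h3 : Complex.tan (θ / 2 : ℂ) = Complex.sin (θ / 2) / Complex.cos (θ / 2) :=
    Complex.tan_eq_sin_div_cos _
  rw [h1]
  push_cast
  rw [h3]
  field_simp
  generalize Complex.cos (θ / 2 : ℂ) = c at *
  generalize Complex.sin (θ / 2 : ℂ) = s at *
  have hI := Complex.I_sq
  linear_combination (c * h * Complex.I - h * s) * h2
    + (c * h * s ^ 2 * Complex.I + 2 * c ^ 2 * h * s + h * s ^ 3) * hI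

theorem lg_eq_log_norm (a b t : ℝ) : lg a b t = log ‖(t : ℂ) - (a + b * Complex.I)‖ := by
  have h1 : ‖(t : ℂ) - (a + b * Complex.I)‖ = √((t - a) ^ 2 + b ^ 2) := by
    rw [Complex.norm_def, Complex.normSq_apply]
    congr 1
    simp
    ring
  rw [h1, log_sqrt (by positivity), lg]

theorem A_log_holds : A_log := by
  intro h a b x hh
  rw [PP_eq hh]
  set ζ : ℂ := a + b * Complex.I with hζ
  set A : ℂ := x - ζ + h * Complex.I with hA
  set B : ℂ := x - ζ - h * Complex.I with hB
  have hAB : A - B = 2 * h * Complex.I := by rw [hA, hB]; ring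
  have hh' : (h : ℂ) ≠ 0 := by exact_mod_cast hh.ne'
  have hne : A ≠ 0 ∨ B ≠ 0 := by
    by_contra hcon
    rw [not_or, not_not, not_not] at hcon
    rw [hcon.1, hcon.2, sub_zero] at hAB
    have : (2 : ℂ) * h * Complex.I ≠ 0 := by simp [hh']
    exact this hAB.symm
  have e1 : ∫ θ in Ioo (-π) π, lg a b (x + h * tan (θ / 2))
      = ∫ θ in Ioo (-π) π, (log ‖A + circleMap 0 1 θ * B‖ - log ‖1 + circleMap 0 1 θ * 1‖) := by
    -- the two sides agree off the zeros of `A + c B`
    have hAc : ∀ᵐ θ ∂(volume.restrict (Ioo (-π) π)), A + circleMap 0 1 θ * B ≠ 0 := by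
      refine ae_restrict_of_ae ?_
      by_cases hB0 : B = 0
      · refine Filter.Eventually.of_forall fun θ => ?_
        rw [hB0, mul_zero, add_zero]
        rcases hne with h | h
        · exact h
        · exact absurd hB0 h
      · have h0 : volume {θ : ℝ | circleMap 0 1 θ = -(A / B)} = 0 := by
          have hsub : {θ : ℝ | circleMap 0 1 θ = -(A / B)} = circleMap 0 1 ⁻¹' {-(A / B)} := rfl
          rw [hsub]
          exact ((countable_singleton _).preimage_circleMap 0 one_ne_zero).measure_zero _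
        rw [ae_iff]
        refine measure_mono_null (fun θ hθ => ?_) h0
        simp only [Set.mem_ofPred_eq, not_not] at hθ ⊢
        rw [eq_neg_iff_add_eq_zero]
        have : (circleMap 0 1 θ + A / B) * B = 0 := by field_simp; rw [add_comm]; simpa using hθ
        rcases mul_eq_zero.1 this with h | h
        · exact h
        · exact absurd h hB0
    refine setIntegral_congr_ae measurableSet_Ioo ?_
    have hAc' := (ae_restrict_iff' measurableSet_Ioo).1 hAc
    filter_upwards [hAc'] with θ hθ hmem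
    have hc : 0 < cos (θ / 2) := by
      apply cos_pos_of_mem_Ioo
      constructor <;> linarith [hmem.1, hmem.2]
    have hcay := cayley x h θ ζ hc.ne'
    rw [← hA, ← hB] at hcay
    have h1 : (1 + circleMap 0 1 θ) ≠ 0 := by
      intro h0
      rw [h0, mul_zero] at hcay
      exact hθ hmem hcay.symm
    have h2 : ((x + h * tan (θ / 2) : ℝ) - ζ) ≠ 0 := by
      intro h0
      rw [h0, zero_mul] at hcay
      exact hθ hmem hcay.symm
    rw [lg_eq_log_norm, ← hcay, norm_mul, mul_one,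
      log_mul (norm_ne_zero_iff.2 h2) (norm_ne_zero_iff.2 h1)]
    ring
  have i1 : CircleIntegrable (fun c => log ‖A + c * B‖) 0 1 := circleIntegrable_log_add_mul A B
  have i2 : CircleIntegrable (fun c => log ‖(1 : ℂ) + c * 1‖) 0 1 :=
    circleIntegrable_log_add_mul 1 1
  have e2 : circleAverage (fun c => log ‖A + c * B‖ - log ‖(1 : ℂ) + c * 1‖) 0 1
      = log (max ‖A‖ ‖B‖) := by
    rw [circleAverage_fun_sub i1 i2, circleAverage_log_add_mul A B hne,
      circleAverage_log_add_mul 1 1 (Or.inl one_ne_zero)]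
    simp
  rw [e1]
  have e3 := circleAverage_eq_Ioo (fun c => log ‖A + c * B‖ - log ‖(1 : ℂ) + c * 1‖)
  rw [e2] at e3
  rw [← e3]
  have hAn : ‖A‖ = √((x - a) ^ 2 + (h - b) ^ 2) := by
    rw [Complex.norm_def, Complex.normSq_apply]
    congr 1
    simp [hA, hζ]
    ring
  have hBn : ‖B‖ = √((x - a) ^ 2 + (h + b) ^ 2) := by
    rw [Complex.norm_def, Complex.normSq_apply]
    congr 1
    simp [hB, hζ]
    ring
  have hm : max ‖A‖ ‖B‖ = √((x - a) ^ 2 + (h + |b|) ^ 2) := by
    rw [hAn, hBn]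
    rcases le_total 0 b with hb | hb
    · rw [abs_of_nonneg hb, max_eq_right]
      apply sqrt_le_sqrt
      nlinarith
    · rw [abs_of_nonpos hb, max_eq_left]
      · ring_nf
      · apply sqrt_le_sqrt
        nlinarith
  rw [hm, log_sqrt (by positivity), lg]

end Pool.Agent.Be22.Ker
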