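import Pool.Agent.W_be22fd_h77.ALog

/-!
# `A_total`: the total mass of one root
-/

open Real MeasureTheory Set Filter Topology

namespace Pool.Agent.Be22.Ker

open Pool.Agent.W_be22fd_h78

/-- `D s = (log (s² + B²) - log (s² + b²)) / 2` -/
noncomputable def Dd (B b s : ℝ) : ℝ := log (s ^ 2 + B ^ 2) / 2 - log (s ^ 2 + b ^ 2) / 2

noncomputable def Gd (B b s : ℝ) : ℝ :=
  (s * (log (s ^ 2 + B ^ 2) / 2) - s * (log (s ^ 2 + b ^ 2) / 2)) + (B * arctan (s / B)
    - b * arctan (s / b))

theorem cont_slog (c : ℝ) : Continuous fun s : ℝ => s * (log (s ^ 2 + c ^ 2) / 2) := by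
  by_cases hc : c = 0
  · have : (fun s : ℝ => s * (log (s ^ 2 + c ^ 2) / 2)) = fun s => s * log s := by
      funext s
      rw [hc]
      have : s ^ 2 + (0 : ℝ) ^ 2 = s ^ 2 := by ring
      rw [this, log_pow]
      push_cast
      ring
    rw [this]
    exact continuous_mul_log
  · have : ∀ s : ℝ, s ^ 2 + c ^ 2 ≠ 0 := fun s => by positivity
    fun_prop (disch := assumption)

theorem Gd_cont (B b : ℝ) : Continuous (Gd B b) := by
  unfold Gd
  refine ((cont_slog B).sub (cont_slog b)).add ?_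
  refine (continuous_const.mul (continuous_arctan.comp (continuous_id.div_const _))).sub
    (continuous_const.mul (continuous_arctan.comp (continuous_id.div_const _)))

theorem hasDerivAt_slog (c s : ℝ) (hs : 0 < s) :
    HasDerivAt (fun s : ℝ => s * (log (s ^ 2 + c ^ 2) / 2))
      (log (s ^ 2 + c ^ 2) / 2 + s ^ 2 / (s ^ 2 + c ^ 2)) s := by
  have hp : 0 < s ^ 2 + c ^ 2 := by positivity
  have h1 : HasDerivAt (fun s : ℝ => s ^ 2 + c ^ 2) (2 * s) s := by
    simpa using (hasDerivAt_pow 2 s).add_const (c ^ 2)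
  have h2 := ((h1.log hp.ne').div_const 2)
  have h3 := (hasDerivAt_id s).mul h2
  refine h3.congr_deriv ?_
  simp only [id]
  field_simp

theorem hasDerivAt_carc (c s : ℝ) (hs : 0 < s) :
    HasDerivAt (fun s : ℝ => c * arctan (s / c)) (c ^ 2 / (s ^ 2 + c ^ 2)) s := by
  by_cases hc : c = 0
  · subst hc
    simpa using hasDerivAt_const s (0 : ℝ)
  · have h1 : HasDerivAt (fun s : ℝ => s / c) (1 / c) s := (hasDerivAt_id s).div_const c
    have h2 := (h1.arctan).const_mul c
    refine h2.congr_deriv ?_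
    field_simp
    ring

theorem Gd_deriv (B b s : ℝ) (hs : 0 < s) : HasDerivAt (Gd B b) (Dd B b s) s := by
  have hB : s ^ 2 + B ^ 2 ≠ 0 := by positivity
  have hb : s ^ 2 + b ^ 2 ≠ 0 := by positivity
  have h := ((hasDerivAt_slog B s hs).sub (hasDerivAt_slog b s hs)).add
    ((hasDerivAt_carc B s hs).sub (hasDerivAt_carc b s hs))
  refine h.congr_deriv ?_
  rw [Dd]
  field_simp
  ring

theorem Dd_nonneg {B b : ℝ} (hb : 0 ≤ b) (hB : b ≤ B) (s : ℝ) (hs : 0 < s) : 0 ≤ Dd B b s := by
  rw [Dd]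
  have : log (s ^ 2 + b ^ 2) ≤ log (s ^ 2 + B ^ 2) := by
    apply log_le_log (by positivity)
    nlinarith
  linarith

theorem Gd_tendsto {B b : ℝ} (hb : 0 ≤ b) (hbB : b ≤ B) (hB : 0 < B) :
    Tendsto (Gd B b) atTop (𝓝 ((B - b) * (π / 2))) := by
  have harc : ∀ c : ℝ, 0 ≤ c → Tendsto (fun s : ℝ => c * arctan (s / c)) atTop (𝓝 (c * (π / 2))) := by
    intro c hc
    rcases hc.eq_or_lt with h | h
    · rw [← h]; simp
    · refine Tendsto.const_mul c ?_
      have h1 : Tendsto (fun s : ℝ => s / c) atTop atTop := tendsto_id.atTop_div_const h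
      exact (tendsto_nhds_of_tendsto_nhdsWithin tendsto_arctan_atTop).comp h1
  have h0 : Tendsto (fun s : ℝ => s * (log (s ^ 2 + B ^ 2) / 2) - s * (log (s ^ 2 + b ^ 2) / 2))
      atTop (𝓝 0) := by
    have hlim : Tendsto (fun s : ℝ => B ^ 2 / 2 / s) atTop (𝓝 0) :=
      tendsto_const_nhds.div_atTop tendsto_id
    refine squeeze_zero' ?_ ?_ hlim
    · filter_upwards [eventually_gt_atTop 0] with s hs
      have := Dd_nonneg hb hbB s hs
      rw [Dd] at this
      nlinarith
    · filter_upwards [eventually_gt_atTop 0] with s hs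
      have hp : 0 < s ^ 2 + b ^ 2 := by positivity
      have hq : 0 < s ^ 2 + B ^ 2 := by positivity
      have h1 : log (s ^ 2 + B ^ 2) - log (s ^ 2 + b ^ 2) ≤ B ^ 2 / s ^ 2 := by
        rw [← log_div hq.ne' hp.ne']
        have h2 := log_le_sub_one_of_pos (div_pos hq hp)
        refine h2.trans ?_
        rw [div_sub_one hp.ne', div_le_div_iff₀ hp (by positivity)]
        nlinarith [sq_nonneg (s * b), sq_nonneg (B * b), sq_nonneg (B * s)]
      have h3 : s * (B ^ 2 / s ^ 2) = B ^ 2 / s := by field_simp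
      have h4 := mul_le_mul_of_nonneg_left h1 hs.le
      rw [h3] at h4
      have h5 : B ^ 2 / 2 / s = B ^ 2 / s / 2 := by ring
      rw [h5]
      linarith
  have h := h0.add ((harc B hB.le).sub (harc b hb))
  have e : (0 : ℝ) + (B * (π / 2) - b * (π / 2)) = (B - b) * (π / 2) := by ring
  rw [e] at h
  exact h

theorem Dd_even (B b s : ℝ) : Dd B b |s| = Dd B b s := by
  rw [Dd, Dd, sq_abs]

theorem Dd_integral {B b : ℝ} (hb : 0 ≤ b) (hbB : b ≤ B) (hB : 0 < B) :
    Integrable (Dd B b) ∧ ∫ s, Dd B b s = (B - b) * π := by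
  have hG0 : Gd B b 0 = 0 := by simp [Gd]
  have h1 : IntegrableOn (Dd B b) (Ioi 0) :=
    integrableOn_Ioi_deriv_of_nonneg (Gd_cont B b).continuousWithinAt
      (fun s hs => Gd_deriv B b s hs) (fun s hs => Dd_nonneg hb hbB s hs)
      (Gd_tendsto hb hbB hB)
  have h2 : ∫ s in Ioi 0, Dd B b s = (B - b) * (π / 2) := by
    rw [integral_Ioi_of_hasDerivAt_of_nonneg (Gd_cont B b).continuousWithinAt
      (fun s hs => Gd_deriv B b s hs) (fun s hs => Dd_nonneg hb hbB s hs)
      (Gd_tendsto hb hbB hB), hG0, sub_zero]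
  constructor
  · have h3 : IntegrableOn (Dd B b) (Iic 0) := by
      rw [← Measure.map_neg_eq_self (volume : Measure ℝ)]
      let m : MeasurableEmbedding fun x : ℝ => -x := (Homeomorph.neg ℝ).measurableEmbedding
      rw [m.integrableOn_map_iff]
      have e : (Dd B b ∘ fun x : ℝ => -x) = Dd B b := by
        funext s
        rw [Function.comp_apply, ← Dd_even, abs_neg, Dd_even]
      rw [e, neg_preimage, neg_Iic, neg_zero]
      exact Iff.mpr integrableOn_Ici_iff_integrableOn_Ioi h1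
    have h5 := h3.union h1
    rwa [Iic_union_Ioi, integrableOn_univ] at h5
  · have h3 := integral_comp_abs (f := Dd B b)
    rw [h2] at h3
    simp only [Dd_even] at h3
    rw [h3]; ring

theorem A_total_holds : A_total := by
  intro h a b hh
  have hB : 0 < h + |b| := by positivity
  have e : dens h (lg a b) = fun t => Dd (h + |b|) |b| (t - a) := by
    funext t
    rw [dens, A_log_holds h a b t hh, lg, lg, Dd, sq_abs]
  obtain ⟨h1, h2⟩ := Dd_integral (abs_nonneg b) (by linarith : |b| ≤ h + |b|) hB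
  rw [e]
  refine ⟨h1.comp_sub_right a, ?_⟩
  rw [integral_sub_right_eq_self (fun t => Dd (h + |b|) |b| t) a, h2]
  ring

end Pool.Agent.Be22.Ker
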