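import Pool.Agent.W_be22fd_h77.FamDef

/-!
# From a measurable family of tests to a local test
-/

open Polynomial Real MeasureTheory

namespace Pool.Agent.Be22.Ker

/-- uniform distribution on `[a, b]` -/
noncomputable def unif (a b : ℝ) : Measure ℝ :=
  ENNReal.ofReal (b - a)⁻¹ • volume.restrict (Set.Icc a b)

variable {a b : ℝ}

theorem unif_prob (hab : a < b) : IsProbabilityMeasure (unif a b) := by
  constructor
  have h : 0 < b - a := by linarith
  rw [unif, Measure.smul_apply, Measure.restrict_apply_univ, Real.volume_Icc, smul_eq_mul,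
    ← ENNReal.ofReal_mul (by positivity), inv_mul_cancel₀ h.ne', ENNReal.ofReal_one]

theorem unif_ae_mem (a b : ℝ) : ∀ᵐ x ∂(unif a b), x ∈ Set.Icc a b :=
  Measure.ae_smul_measure (ae_restrict_mem measurableSet_Icc) _

theorem unif_singleton (a b x : ℝ) : unif a b {x} = 0 := by
  rw [unif, Measure.smul_apply]
  have : volume.restrict (Set.Icc a b) {x} = 0 :=
    le_antisymm ((Measure.restrict_apply_le _ _).trans (by simp)) zero_le
  rw [this, smul_zero]

theorem unif_ae_ne (a b : ℝ) (y : ℂ) : ∀ᵐ x : ℝ ∂(unif a b), (x : ℂ) ≠ y := by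
  rw [ae_iff]
  refine measure_mono_null (t := ({y.re} : Set ℝ)) (fun x hx => ?_) (unif_singleton a b _)
  simp only [Set.mem_ofPred_eq, not_not] at hx
  rw [Set.mem_singleton_iff, ← hx, Complex.ofReal_re]

theorem unif_ae_mem_Ioo (a b : ℝ) : ∀ᵐ x ∂(unif a b), x ∈ Set.Ioo a b := by
  have h1 : ∀ᵐ x ∂(unif a b), x ≠ a := by
    rw [ae_iff]
    have : {x | ¬ x ≠ a} = {a} := by ext x; simp
    rw [this]; exact unif_singleton a b a
  have h2 : ∀ᵐ x ∂(unif a b), x ≠ b := by
    rw [ae_iff]
    have : {x | ¬ x ≠ b} = {b} := by ext x; simp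
    rw [this]; exact unif_singleton a b b
  filter_upwards [unif_ae_mem a b, h1, h2] with x hx hxa hxb
  exact ⟨lt_of_le_of_ne hx.1 (Ne.symm hxa), lt_of_le_of_ne hx.2 hxb⟩

theorem integral_unif (hab : a ≤ b) (f : ℝ → ℝ) :
    ∫ x, f x ∂(unif a b) = (b - a)⁻¹ * ∫ x in a..b, f x := by
  rw [unif, integral_smul_measure, ENNReal.toReal_ofReal (by
    rw [inv_nonneg]; linarith), smul_eq_mul, intervalIntegral.integral_of_le hab,
    integral_Icc_eq_integral_Ioc]

theorem unif_int_log (hab : a ≤ b) (y : ℂ) :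
    Integrable (fun x : ℝ => log ‖(x : ℂ) - y‖) (unif a b) := by
  have h1 : IntervalIntegrable (fun x : ℝ => log ‖(x : ℂ) - y‖) volume a b := by
    apply MeromorphicOn.intervalIntegrable_log_norm (f := fun x : ℝ => (x : ℂ) - y)
    intro x _
    apply AnalyticAt.meromorphicAt
    have : AnalyticAt ℝ (fun x : ℝ => (x : ℂ)) x := Complex.ofRealCLM.analyticAt x
    exact this.sub analyticAt_const
  rw [intervalIntegrable_iff_integrableOn_Icc_of_le hab] at h1
  exact Integrable.smul_measure h1 ENNReal.ofReal_ne_top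

theorem good_unif (hab : a < b) : Good ((unif a b).map ((↑) : ℝ → ℂ)) ∅ := by
  have := unif_prob hab
  refine Good.map (R := max |a| |b|) (by fun_prop) ?_ (fun y _ => ?_) (fun y => ?_)
  · filter_upwards [unif_ae_mem a b] with x hx
    rw [Complex.norm_real, Real.norm_eq_abs]
    exact abs_le_max_abs_abs hx.1 hx.2
  · have h1 := unif_ae_ne a b y
    rw [ae_iff] at h1
    simpa using h1
  · exact unif_int_log hab.le y

section

variable {Ω : Type} [MeasurableSpace Ω] {P : Measure Ω} {Z : ℝ × Ω → ℂ} {φ : ℝ → ℂ → ℝ}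

theorem Fam.int_prod (h : Fam P a b Z φ) (hab : a < b) (y : ℂ) :
    Integrable (fun p => log ‖Z p - y‖) ((unif a b).prod P) := by
  have := h.prob
  have := unif_prob hab
  have hm := h.meas
  have hmeas : Measurable fun p => log ‖Z p - y‖ := by fun_prop
  obtain ⟨R, hR⟩ := h.bdd
  rw [integrable_prod_iff hmeas.aestronglyMeasurable]
  constructor
  · filter_upwards [unif_ae_mem a b] with x hx
    exact h.int x hx y
  · have hmeas2 : AEStronglyMeasurable (fun x => ∫ ω, ‖log ‖Z (x, ω) - y‖‖ ∂P) (unif a b) :=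
      (hmeas.norm.stronglyMeasurable.integral_prod_right').aestronglyMeasurable
    refine Integrable.mono' (g := fun x => 2 * log⁺ (R + ‖y‖) + |log ‖(x : ℂ) - y‖|)
      ((integrable_const _).add (unif_int_log hab.le y).abs) hmeas2 ?_
    filter_upwards [unif_ae_mem a b, unif_ae_ne a b y] with x hx hxy
    rw [Real.norm_eq_abs, abs_of_nonneg (integral_nonneg fun ω => norm_nonneg _)]
    have e1 := integral_abs_eq_two_mul_integral_posPart_sub_integral (h.int x hx y)
    simp only [Real.norm_eq_abs]
    rw [e1, h.pot x hx y (Ne.symm hxy)]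
    have h2 : ∫ ω, (log ‖Z (x, ω) - y‖)⁺ ∂P ≤ log⁺ (R + ‖y‖) := by
      have : ∫ ω, (log ‖Z (x, ω) - y‖)⁺ ∂P ≤ ∫ ω, log⁺ (R + ‖y‖) ∂P := by
        refine integral_mono (h.int x hx y).pos_part (integrable_const _) fun ω => ?_
        have e2 : (log ‖Z (x, ω) - y‖)⁺ = log⁺ ‖Z (x, ω) - y‖ := by
          rw [posPart_def, max_comm]; rfl
        simp only
        rw [e2]
        refine posLog_le_posLog (norm_nonneg _) ?_
        exact (norm_sub_le _ _).trans (add_le_add (hR x hx ω) le_rfl)
      rwa [integral_const, probReal_univ, one_smul] at this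
    have h3 := neg_abs_le (log ‖(x : ℂ) - y‖)
    have h4 := h.nonneg x y
    linarith

theorem Fam.good (h : Fam P a b Z φ) (hab : a < b) : Good (((unif a b).prod P).map Z) ∅ := by
  have := h.prob
  have := unif_prob hab
  obtain ⟨R, hR⟩ := h.bdd
  refine Good.map h.meas (R := R) ?_ (fun y _ => ?_) (fun y => h.int_prod hab y)
  · have h1 := (Measure.quasiMeasurePreserving_fst (μ := unif a b) (ν := P)).ae (unif_ae_mem a b)
    filter_upwards [h1] with p hp
    exact hR p.1 hp p.2
  · have hs : MeasurableSet {p | Z p = y} := h.meas (measurableSet_singleton y)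
    rw [Measure.measure_prod_null hs]
    filter_upwards [unif_ae_mem a b] with x hx
    exact h.ne x hx y

/-- `Fam` gives a test at every point -/
theorem Fam.tst (h : Fam P a b Z φ) {x : ℝ} (hx : x ∈ Set.Icc a b) :
    Tst (P.map fun ω => Z (x, ω)) x (φ x) := by
  have := h.prob
  have hm : Measurable fun ω => Z (x, ω) := h.meas.comp (by fun_prop)
  obtain ⟨R, hR⟩ := h.bdd
  refine ⟨Measure.isProbabilityMeasure_map hm.aemeasurable, ?_, fun y hy => ?_, h.nonneg x⟩
  · exact Good.map hm (R := R) (Filter.Eventually.of_forall (hR x hx)) (fun y _ => h.ne x hx y)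
      (h.int x hx)
  · rw [Ker.pot, integral_map hm.aemeasurable (Measurable.aestronglyMeasurable (by fun_prop))]
    exact h.pot x hx y hy

/-- **x-average.** -/
theorem Fam.localTest (h : Fam P a b Z φ) (hab : a < b) {L : List ℂ[X]} (h0 : ∀ Q ∈ L, Q ≠ 0)
    (hL : L ≠ []) {R : Set ℂ} {C : ℝ} (hC : 0 < C)
    (hbar : ∀ y, ∫ x in a..b, φ x y ≤ (b - a) * (C * R.indicator 1 y)) {lam : ℝ}
    (hlow : ∀ x ∈ Set.Ioo a b, 0 < mx L x →
      lam ≤ val L (P.map fun ω => Z (x, ω)) - log (mx L x)) :
    LocalTest L R (lam / C) := by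
  have := h.prob
  have := unif_prob hab
  have gμ := h.good hab
  have gν := good_unif hab
  have hE := exists_mem_of_ne_nil' hL
  have hm := h.meas
  have hba : 0 < b - a := by linarith
  refine ⟨ENNReal.ofReal C⁻¹ • ((unif a b).prod P).map Z,
    ENNReal.ofReal C⁻¹ • (unif a b).map ((↑) : ℝ → ℂ), gμ.smul _, gν.smul _, ?_, fun y => ?_, ?_⟩
  · have p1 : IsProbabilityMeasure (((unif a b).prod P).map Z) :=
      Measure.isProbabilityMeasure_map hm.aemeasurable
    have p2 : IsProbabilityMeasure ((unif a b).map ((↑) : ℝ → ℂ)) :=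
      Measure.isProbabilityMeasure_map (by fun_prop)
    rw [mass_smul (by positivity), mass_smul (by positivity), probReal_univ, probReal_univ]
  · rw [pot_smul (by positivity), pot_smul (by positivity)]
    have e1 : Ker.pot (((unif a b).prod P).map Z) y
        = ∫ x, (∫ ω, log ‖Z (x, ω) - y‖ ∂P) ∂(unif a b) := by
      rw [Ker.pot, integral_map hm.aemeasurable (Measurable.aestronglyMeasurable (by fun_prop)),
        integral_prod _ (h.int_prod hab y)]
    have e2 : Ker.pot ((unif a b).map ((↑) : ℝ → ℂ)) y = ∫ x : ℝ, log ‖(x : ℂ) - y‖ ∂(unif a b) := by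
      rw [Ker.pot, integral_map (by fun_prop) (Measurable.aestronglyMeasurable (by fun_prop))]
    have i1 : Integrable (fun x => ∫ ω, log ‖Z (x, ω) - y‖ ∂P) (unif a b) :=
      (h.int_prod hab y).integral_prod_left
    have e3 : ∫ x, φ x y ∂(unif a b) = Ker.pot (((unif a b).prod P).map Z) y
        - Ker.pot ((unif a b).map ((↑) : ℝ → ℂ)) y := by
      rw [e1, e2, ← integral_sub i1 (unif_int_log hab.le y)]
      refine integral_congr_ae ?_
      filter_upwards [unif_ae_mem a b, unif_ae_ne a b y] with x hx hxy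
      rw [h.pot x hx y (Ne.symm hxy)]
      ring
    have e4 : ∫ x, φ x y ∂(unif a b) ≤ C * R.indicator 1 y := by
      rw [integral_unif hab.le, ← div_eq_inv_mul, div_le_iff₀ hba]
      linarith [hbar y]
    have e5 : Ker.pot (((unif a b).prod P).map Z) y ≤ Ker.pot ((unif a b).map ((↑) : ℝ → ℂ)) y
        + C * R.indicator 1 y := by linarith
    have e6 := mul_le_mul_of_nonneg_left e5 (inv_nonneg.2 hC.le)
    rw [mul_add, ← mul_assoc C⁻¹ C, inv_mul_cancel₀ hC.ne', one_mul] at e6
    exact e6
  · rw [val_smul L (by positivity), val_smul L (by positivity)]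
    have hmL : Measurable fun z => log (mx L z) := measurable_log.comp (mx_continuous L).measurable
    have j1 : Integrable (fun p => log (mx L (Z p))) ((unif a b).prod P) :=
      (integrable_map_measure hmL.aestronglyMeasurable hm.aemeasurable).1 (gμ.int_mx h0 hE)
    have j2 : Integrable (fun x : ℝ => log (mx L (x : ℂ))) (unif a b) :=
      (integrable_map_measure hmL.aestronglyMeasurable (by fun_prop)).1 (gν.int_mx h0 hE)
    have e1 : val L (((unif a b).prod P).map Z)
        = ∫ x, (∫ ω, log (mx L (Z (x, ω))) ∂P) ∂(unif a b) := by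
      rw [val, integral_map hm.aemeasurable hmL.aestronglyMeasurable, integral_prod _ j1]
    have e2 : val L ((unif a b).map ((↑) : ℝ → ℂ)) = ∫ x : ℝ, log (mx L (x : ℂ)) ∂(unif a b) := by
      rw [val, integral_map (by fun_prop) hmL.aestronglyMeasurable]
    have hpos : ∀ᵐ x : ℝ ∂(unif a b), 0 < mx L (x : ℂ) := by
      have := gν.ae_mx_pos h0 hE
      rwa [ae_map_iff (by fun_prop) (measurableSet_lt measurable_const
        (mx_continuous L).measurable)] at this
    have e3 : lam ≤ val L (((unif a b).prod P).map Z) - val L ((unif a b).map ((↑) : ℝ → ℂ)) := by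
      rw [e1, e2, ← integral_sub j1.integral_prod_left j2]
      have : ∫ _x, lam ∂(unif a b) ≤ ∫ x, ((∫ ω, log (mx L (Z (x, ω))) ∂P) - log (mx L (x : ℂ)))
          ∂(unif a b) := by
        refine integral_mono_ae (integrable_const _) (j1.integral_prod_left.sub j2) ?_
        filter_upwards [unif_ae_mem_Ioo a b, hpos] with x hx hxp
        have hmx : Measurable fun ω => Z (x, ω) := hm.comp (by fun_prop)
        have := hlow x hx hxp
        rw [val, integral_map hmx.aemeasurable hmL.aestronglyMeasurable] at this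
        exact this
      rwa [integral_const, probReal_univ, one_smul] at this
    have e4 := mul_le_mul_of_nonneg_left e3 (inv_nonneg.2 hC.le)
    rw [mul_sub] at e4
    rw [div_eq_inv_mul]
    exact e4

end

end Pool.Agent.Be22.Ker
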