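import Pool.Agent.W_be22fd_h77.Family
import Pool.Agent.W_be22fd_h78.Calc

/-!
# The forced mass predicate `F`
-/

open Polynomial Real MeasureTheory

namespace Pool.Agent.Be22.Ker

open Pool.Agent.W_be22fd_h78 (Dom)

/-- real polynomial as complex polynomial -/
noncomputable abbrev toC (P : ℝ[X]) : ℂ[X] := P.map Complex.ofRealHom

/-- `L` lists the differences of the elements of `S` -/
structure Diffs (S : Set ℝ[X]) (L : List ℂ[X]) : Prop where
  sub : ∀ Q ∈ L, ∃ P ∈ S, ∃ P' ∈ S, P ≠ P' ∧ Q = toC (P - P')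
  mem : ∀ P ∈ S, ∀ P' ∈ S, P ≠ P' → toC (P - P') ∈ L

/-- closed disc with diameter `[a, b]` -/
def dsc (a b : ℝ) : Set ℂ := Metric.closedBall (((a + b) / 2 : ℝ) : ℂ) ((b - a) / 2)

/-- the hull `N(a, b)`: closed disc with diameter `[a - (b-a)/16, b + (b-a)/16]` -/
def Nb (a b : ℝ) : Set ℂ := dsc (a - (b - a) / 16) (b + (b - a) / 16)

/-- admissible excluded intervals `[y₁, y₂]` of `[a, b]` (`y₂ < y₁`: nothing excluded) -/
def Excl (a b y₁ y₂ : ℝ) : Prop :=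
  y₂ < y₁ ∨ (b < y₁ ∧ y₂ - y₁ ≤ y₁ - b) ∨ (y₂ < a ∧ y₂ - y₁ ≤ a - y₂)

/-- **Forced mass.** -/
def F (S : Set ℝ[X]) (g a b : ℝ) : Prop :=
  S.Finite ∧ S.Nontrivial ∧ a ≤ b ∧ ∀ L, Diffs S L →
    ∀ (μ : Measure ℂ) (x : ℝ) (φ : ℂ → ℝ), Tst μ x φ → 0 < mx L x →
      ∀ κ : ℝ, 0 ≤ κ → ∀ y₁ y₂, Excl a b y₁ y₂ →
        (∀ y ∈ Nb a b, y ∉ dsc y₁ y₂ → y ≠ x → κ ≤ φ y) → κ * g ≤ val L μ - log (mx L x)

theorem toC_ne_zero {P : ℝ[X]} (h : P ≠ 0) : toC P ≠ 0 := by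
  rwa [Ne, Polynomial.map_eq_zero_iff Complex.ofRealHom.injective]

theorem toC_eval (P : ℝ[X]) (x : ℝ) : (toC P).eval (x : ℂ) = ((P.eval x : ℝ) : ℂ) := by
  rw [toC, Polynomial.eval_map]
  exact (Polynomial.hom_eval₂ P (RingHom.id ℝ) Complex.ofRealHom x).symm

theorem toC_natDegree (P : ℝ[X]) : (toC P).natDegree = P.natDegree :=
  natDegree_map_eq_of_injective Complex.ofRealHom.injective P

namespace Diffs

variable {S S' : Set ℝ[X]} {L L' : List ℂ[X]}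

theorem ne_zero (h : Diffs S L) : ∀ Q ∈ L, Q ≠ 0 := by
  intro Q hQ
  obtain ⟨P, _, P', _, hne, rfl⟩ := h.sub Q hQ
  exact toC_ne_zero (sub_ne_zero.2 hne)

theorem ne_nil (h : Diffs S L) (hS : S.Nontrivial) : L ≠ [] := by
  obtain ⟨P, hP, P', hP', hne⟩ := hS
  exact List.ne_nil_of_mem (h.mem P hP P' hP' hne)

theorem natDegree_le (h : Diffs S L) {d : ℕ} (hd : ∀ P ∈ S, P.natDegree ≤ d) :
    ∀ Q ∈ L, Q.natDegree ≤ d := by
  intro Q hQ
  obtain ⟨P, hP, P', hP', _, rfl⟩ := h.sub Q hQ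
  rw [toC_natDegree]
  exact (natDegree_sub_le _ _).trans (max_le (hd P hP) (hd P' hP'))

theorem exists_of_finite (hS : S.Finite) : ∃ L, Diffs S L := by
  classical
  refine ⟨(((hS.toFinset ×ˢ hS.toFinset).filter fun p => p.1 ≠ p.2).toList).map
    fun p => toC (p.1 - p.2), ?_, ?_⟩
  · intro Q hQ
    simp only [List.mem_map, Finset.mem_toList, Finset.mem_filter, Finset.mem_product,
      Set.Finite.mem_toFinset] at hQ
    obtain ⟨p, ⟨⟨h1, h2⟩, h3⟩, rfl⟩ := hQ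
    exact ⟨p.1, h1, p.2, h2, h3, rfl⟩
  · intro P hP P' hP' hne
    simp only [List.mem_map, Finset.mem_toList, Finset.mem_filter, Finset.mem_product,
      Set.Finite.mem_toFinset]
    exact ⟨(P, P'), ⟨⟨hP, hP'⟩, hne⟩, rfl⟩

end Diffs

theorem mx_le_of_forall {L : List ℂ[X]} {z : ℂ} {c : ℝ} (hc : 0 ≤ c)
    (h : ∀ Q ∈ L, ‖Q.eval z‖ ≤ c) : mx L z ≤ c := by
  induction L with
  | nil => simpa using hc
  | cons A L ih =>
    rw [mx_cons]
    exact max_le (h A (by simp)) (ih fun Q hQ => h Q (List.mem_cons_of_mem _ hQ))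

theorem mx_mono {L L' : List ℂ[X]} (h : ∀ Q ∈ L', Q ∈ L) (z : ℂ) : mx L' z ≤ mx L z :=
  mx_le_of_forall (mx_nonneg _ _) fun Q hQ => le_mx (h Q hQ) z

theorem Diffs.mono {S S' : Set ℝ[X]} {L L' : List ℂ[X]} (h : Diffs S L) (h' : Diffs S' L')
    (hS : S' ⊆ S) (z : ℂ) : mx L' z ≤ mx L z := by
  refine mx_mono (fun Q hQ => ?_) z
  obtain ⟨P, hP, P', hP', hne, rfl⟩ := h'.sub Q hQ
  exact h.mem P (hS hP) P' (hS hP') hne

theorem Diffs.dom {S S' : Set ℝ[X]} {L L' : List ℂ[X]} (h : Diffs S L) (h' : Diffs S' L')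
    {E x : ℝ} (hE : 0 ≤ E) (hD : Dom E S S' x) : mx L x ≤ E * mx L' x := by
  refine mx_le_of_forall (mul_nonneg hE (mx_nonneg _ _)) fun Q hQ => ?_
  obtain ⟨P, hP, P', hP', _, rfl⟩ := h.sub Q hQ
  obtain ⟨R, hR, R', hR', hle⟩ := hD P hP P' hP'
  rw [toC_eval, Complex.norm_real, Real.norm_eq_abs, eval_sub]
  refine hle.trans (mul_le_mul_of_nonneg_left ?_ hE)
  by_cases hne : R = R'
  · subst hne
    simpa using mx_nonneg _ _
  · have := le_mx (h'.mem R hR R' hR' hne) (x : ℂ)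
    rwa [toC_eval, Complex.norm_real, Real.norm_eq_abs, eval_sub] at this

/-- value is monotone in the list -/
theorem val_mono {L L' : List ℂ[X]} {μ : Measure ℂ} (hμ : Good μ ∅) (h0 : ∀ Q ∈ L, Q ≠ 0)
    (h0' : ∀ Q ∈ L', Q ≠ 0) (hL : L ≠ []) (hL' : L' ≠ []) (hle : ∀ z, mx L' z ≤ mx L z) :
    val L' μ ≤ val L μ := by
  have hE := exists_mem_of_ne_nil' hL
  have hE' := exists_mem_of_ne_nil' hL'
  refine integral_mono_ae (hμ.int_mx h0' hE') (hμ.int_mx h0 hE) ?_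
  filter_upwards [hμ.ae_mx_pos h0' hE'] with z hz
  exact log_le_log hz (hle z)

/-- **Step from a child.** -/
theorem child_step {S S' : Set ℝ[X]} {L : List ℂ[X]} (hL : Diffs S L) (hS : S.Nontrivial)
    (hSS : S' ⊆ S) {g a b : ℝ} (hF : F S' g a b) {μ : Measure ℂ} {x : ℝ} {φ : ℂ → ℝ}
    (ht : Tst μ x φ) (hx : 0 < mx L x) {E : ℝ} (hE : 0 < E) (hD : Dom E S S' x) {κ : ℝ}
    (hκ : 0 ≤ κ) {y₁ y₂ : ℝ} (hY : Excl a b y₁ y₂)
    (hφ : ∀ y ∈ Nb a b, y ∉ dsc y₁ y₂ → y ≠ x → κ ≤ φ y) :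
    κ * g - log E ≤ val L μ - log (mx L x) := by
  obtain ⟨hfin, hnt, _, hall⟩ := hF
  obtain ⟨L', hL'⟩ := Diffs.exists_of_finite hfin
  have h1 : mx L x ≤ E * mx L' x := hL.dom hL' hE.le hD
  have h2 : 0 < mx L' x := by
    by_contra hcon
    rw [not_lt] at hcon
    have : E * mx L' x ≤ 0 := mul_nonpos_of_nonneg_of_nonpos hE.le hcon
    linarith
  have h3 := hall L' hL' μ x φ ht h2 κ hκ y₁ y₂ hY hφ
  have h4 : val L' μ ≤ val L μ := val_mono ht.good hL.ne_zero hL'.ne_zero (hL.ne_nil hS)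
    (hL'.ne_nil hnt) (hL.mono hL' hSS)
  have h5 : log (mx L x) ≤ log E + log (mx L' x) := by
    rw [← log_mul hE.ne' h2.ne']
    exact log_le_log hx h1
  linarith

/-- nonnegativity (domination by nothing) -/
theorem val_sub_nonneg {L : List ℂ[X]} (h0 : ∀ Q ∈ L, Q ≠ 0) {μ : Measure ℂ} {x : ℂ} {φ : ℂ → ℝ}
    (ht : Tst μ x φ) (hx : 0 < mx L x) : 0 ≤ val L μ - log (mx L x) := by
  have h := combine (κ := ℕ) ∅ (fun _ => ∅) (fun _ => 0) L h0 (by simp) (by simp) ht hx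
    (κ₀ := 0) le_rfl (by simp)
  simpa using h

/-- the value of a single polynomial -/
theorem val_single {Q : ℂ[X]} (hQ : Q ≠ 0) {μ : Measure ℂ} {x : ℂ} {φ : ℂ → ℝ}
    (ht : Tst μ x φ) (hx : Q.eval x ≠ 0) :
    ∫ z, log ‖Q.eval z‖ ∂μ = log ‖Q.eval x‖ + (Q.roots.map φ).sum := by
  have := ht.prob
  rw [ht.good.integral_eval hQ (by simp), probReal_univ, one_mul, log_norm_eval' Q hQ x hx]
  have : (Q.roots.map fun y => ∫ z, log ‖z - y‖ ∂μ).sum
      = (Q.roots.map fun y => (log ‖x - y‖ + φ y)).sum := by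
    congr 1
    refine Multiset.map_congr rfl fun y hy => ?_
    refine ht.pot_eq y fun hyx => hx ?_
    rw [← hyx]
    exact isRoot_of_mem_roots hy
  rw [this, Multiset.sum_map_add]
  ring

/-- **(L0)** a crossing pair has mass `1`. -/
theorem F_pair {P Q : ℝ[X]} {x : ℝ} (hne : P ≠ Q) (hx : P.eval x = Q.eval x) :
    F {P, Q} 1 x x := by
  refine ⟨by simp, ?_, le_rfl, ?_⟩
  · exact ⟨P, by simp, Q, by simp, hne⟩
  intro L hL μ x' φ ht hpos κ hκ y₁ y₂ hY hφ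
  set D : ℂ[X] := toC (P - Q) with hD
  have hD0 : D ≠ 0 := toC_ne_zero (sub_ne_zero.2 hne)
  have hnorm : ∀ A ∈ L, ∀ z, ‖A.eval z‖ = ‖D.eval z‖ := by
    intro A hA z
    obtain ⟨R, hR, R', hR', hRR, rfl⟩ := hL.sub A hA
    simp only [Set.mem_insert_iff, Set.mem_singleton_iff] at hR hR'
    rcases hR with rfl | rfl <;> rcases hR' with rfl | rfl
    · exact absurd rfl hRR
    · rfl
    · have : toC (R - R') = - D := by
        rw [hD, toC, toC, ← Polynomial.map_neg]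
        congr 1; ring
      rw [this, eval_neg, norm_neg]
    · exact absurd rfl hRR
  have hmx : ∀ z, mx L z = ‖D.eval z‖ := by
    intro z
    apply le_antisymm
    · exact mx_le_of_forall (norm_nonneg _) fun A hA => (hnorm A hA z).le
    · exact le_mx (hL.mem P (by simp) Q (by simp) hne) z
  have hDx : D.eval (x' : ℂ) ≠ 0 := by
    rw [hmx] at hpos
    exact norm_pos_iff.1 hpos
  have h1 : val L μ = ∫ z, log ‖D.eval z‖ ∂μ := by
    rw [val]; simp only [hmx]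
  rw [h1, val_single hD0 ht hDx, hmx]
  have hroot : (x : ℂ) ∈ D.roots := by
    rw [mem_roots hD0, IsRoot, hD, toC_eval, eval_sub, hx, sub_self, Complex.ofReal_zero]
  have h2 : κ ≤ φ x := by
    apply hφ
    · rw [Nb, dsc]; simp
    · intro hmem
      rw [dsc, Metric.mem_closedBall, dist_eq_norm, ← Complex.ofReal_sub, Complex.norm_real,
        Real.norm_eq_abs] at hmem
      rcases hY with h | ⟨h, _⟩ | ⟨h, _⟩
      · have := abs_nonneg (x - (y₁ + y₂) / 2)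
        linarith
      · have := neg_abs_le (x - (y₁ + y₂) / 2)
        linarith
      · have := le_abs_self (x - (y₁ + y₂) / 2)
        linarith
    · intro hxx
      apply hDx
      rw [← hxx]
      exact isRoot_of_mem_roots hroot
  have h3 : φ x ≤ (D.roots.map φ).sum := by
    obtain ⟨T, hT⟩ := Multiset.exists_cons_of_mem hroot
    rw [hT, Multiset.map_cons, Multiset.sum_cons]
    have : 0 ≤ (T.map φ).sum := by
      apply Multiset.sum_nonneg
      intro r hr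
      obtain ⟨y, _, rfl⟩ := Multiset.mem_map.1 hr
      exact ht.nonneg y
    linarith
  linarith

end Pool.Agent.Be22.Ker
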