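import Pool.Agent.W_be22fd_h77.PL

/-!
# Constructors for `Good` measures, tests, local tests
-/

open Polynomial Real MeasureTheory
open scoped ENNReal

namespace Pool.Agent.Be22.Ker

/-- logarithmic potential -/
noncomputable def pot (μ : Measure ℂ) (y : ℂ) : ℝ := ∫ z, log ‖z - y‖ ∂μ

/-- the value of `log (mx L)` on a measure -/
noncomputable def val (L : List ℂ[X]) (μ : Measure ℂ) : ℝ := ∫ z, log (mx L z) ∂μ

namespace Good

variable {μ μ₁ μ₂ : Measure ℂ} {E E' : Set ℂ}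

theorem mono (h : Good μ E) (hE : E ⊆ E') : Good μ E' :=
  ⟨h.fin, h.bdd, fun y hy => h.noatom y fun h' => hy (hE h'), h.int⟩

theorem add (h₁ : Good μ₁ E) (h₂ : Good μ₂ E) : Good (μ₁ + μ₂) E := by
  have := h₁.fin
  have := h₂.fin
  obtain ⟨R₁, hR₁⟩ := h₁.bdd
  obtain ⟨R₂, hR₂⟩ := h₂.bdd
  refine ⟨inferInstance, ⟨max R₁ R₂, ?_⟩, fun y hy => ?_, fun y => ?_⟩
  · rw [ae_add_measure_iff]
    exact ⟨hR₁.mono fun z hz => hz.trans (le_max_left _ _),
      hR₂.mono fun z hz => hz.trans (le_max_right _ _)⟩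
  · rw [Measure.add_apply, h₁.noatom y hy, h₂.noatom y hy, add_zero]
  · exact (h₁.int y).add_measure (h₂.int y)

theorem zero (E : Set ℂ) : Good 0 E :=
  ⟨inferInstance, ⟨0, by simp⟩, fun _ _ => by simp, fun _ => integrable_zero_measure⟩

theorem smul (h : Good μ E) (c : ℝ) : Good (ENNReal.ofReal c • μ) E := by
  have := h.fin
  obtain ⟨R, hR⟩ := h.bdd
  refine ⟨?_, ⟨R, ?_⟩, fun y hy => ?_, fun y => ?_⟩
  · exact Measure.smul_finite μ ENNReal.ofReal_ne_top
  · exact Measure.ae_smul_measure hR _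
  · rw [Measure.smul_apply, h.noatom y hy, smul_zero]
  · exact (h.int y).smul_measure ENNReal.ofReal_ne_top

theorem sum {κ : Type*} (K : Finset κ) {μ : κ → Measure ℂ} (h : ∀ k ∈ K, Good (μ k) E) :
    Good (∑ k ∈ K, μ k) E := by
  classical
  induction K using Finset.induction_on with
  | empty => simpa using zero E
  | insert a K ha ih =>
    rw [Finset.sum_insert ha]
    exact (h a (Finset.mem_insert_self _ _)).add
      (ih fun k hk => h k (Finset.mem_insert_of_mem hk))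

theorem dirac (x : ℂ) : Good (Measure.dirac x) {x} := by
  refine ⟨inferInstance, ⟨‖x‖, ?_⟩, fun y hy => ?_, fun y => ?_⟩
  · rw [ae_dirac_eq]; simp
  · rw [Measure.dirac_apply' _ (measurableSet_singleton _)]
    simp only [Set.mem_singleton_iff] at hy
    simp [Ne.symm hy]
  · exact integrable_dirac (by simp)

theorem map {α : Type*} [MeasurableSpace α] {ρ : Measure α} [IsFiniteMeasure ρ] {Z : α → ℂ}
    (hZ : Measurable Z) {R : ℝ} (hR : ∀ᵐ a ∂ρ, ‖Z a‖ ≤ R) (hat : ∀ y, y ∉ E → ρ {a | Z a = y} = 0)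
    (hint : ∀ y, Integrable (fun a => log ‖Z a - y‖) ρ) : Good (ρ.map Z) E := by
  refine ⟨inferInstance, ⟨R, ?_⟩, fun y hy => ?_, fun y => ?_⟩
  · rw [ae_map_iff hZ.aemeasurable (measurableSet_le (by fun_prop) (by fun_prop))]
    exact hR
  · rw [Measure.map_apply hZ (measurableSet_singleton _)]
    exact hat y hy
  · rw [integrable_map_measure (Measurable.aestronglyMeasurable (by fun_prop)) hZ.aemeasurable]
    exact hint y

end Good

variable {μ ν μ₁ μ₂ : Measure ℂ} {E : Set ℂ}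

theorem pot_add (h₁ : Good μ₁ E) (h₂ : Good μ₂ E) (y : ℂ) :
    pot (μ₁ + μ₂) y = pot μ₁ y + pot μ₂ y :=
  integral_add_measure (h₁.int y) (h₂.int y)

theorem pot_smul {c : ℝ} (hc : 0 ≤ c) (μ : Measure ℂ) (y : ℂ) :
    pot (ENNReal.ofReal c • μ) y = c * pot μ y := by
  rw [pot, integral_smul_measure, ENNReal.toReal_ofReal hc, smul_eq_mul]; rfl

theorem pot_zero (y : ℂ) : pot 0 y = 0 := by simp [pot]

theorem pot_sum {κ : Type*} (K : Finset κ) {μ : κ → Measure ℂ} (h : ∀ k ∈ K, Good (μ k) E)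
    (y : ℂ) : pot (∑ k ∈ K, μ k) y = ∑ k ∈ K, pot (μ k) y :=
  integral_finsetSum_measure fun k hk => (h k hk).int y

theorem val_add {L : List ℂ[X]} (h0 : ∀ Q ∈ L, Q ≠ 0) (hE : ∃ Q ∈ L, ∀ x ∈ E, Q.eval x ≠ 0)
    (h₁ : Good μ₁ E) (h₂ : Good μ₂ E) : val L (μ₁ + μ₂) = val L μ₁ + val L μ₂ :=
  integral_add_measure (h₁.int_mx h0 hE) (h₂.int_mx h0 hE)

theorem val_smul (L : List ℂ[X]) {c : ℝ} (hc : 0 ≤ c) (μ : Measure ℂ) :
    val L (ENNReal.ofReal c • μ) = c * val L μ := by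
  rw [val, integral_smul_measure, ENNReal.toReal_ofReal hc, smul_eq_mul]; rfl

theorem val_sum {κ : Type*} (K : Finset κ) {μ : κ → Measure ℂ} {L : List ℂ[X]}
    (h0 : ∀ Q ∈ L, Q ≠ 0) (hE : ∃ Q ∈ L, ∀ x ∈ E, Q.eval x ≠ 0) (h : ∀ k ∈ K, Good (μ k) E) :
    val L (∑ k ∈ K, μ k) = ∑ k ∈ K, val L (μ k) :=
  integral_finsetSum_measure fun k hk => (h k hk).int_mx h0 hE

theorem mass_sum {κ : Type*} (K : Finset κ) {μ : κ → Measure ℂ} (h : ∀ k ∈ K, Good (μ k) E) :
    (∑ k ∈ K, μ k).real Set.univ = ∑ k ∈ K, (μ k).real Set.univ := by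
  classical
  induction K using Finset.induction_on with
  | empty => simp
  | insert a K ha ih =>
    have h1 := (h a (Finset.mem_insert_self _ _)).fin
    have h2 := (Good.sum K fun k hk => h k (Finset.mem_insert_of_mem hk)).fin
    rw [Finset.sum_insert ha, Finset.sum_insert ha, measureReal_add_apply,
      ih fun k hk => h k (Finset.mem_insert_of_mem hk)]

theorem mass_smul {c : ℝ} (hc : 0 ≤ c) (μ : Measure ℂ) :
    (ENNReal.ofReal c • μ).real Set.univ = c * μ.real Set.univ := by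
  rw [measureReal_ennreal_smul_apply, ENNReal.toReal_ofReal hc]

/-- A test: a probability measure `μ` and a real point `x` with potential difference `φ ≥ 0`. -/
structure Tst (μ : Measure ℂ) (x : ℂ) (φ : ℂ → ℝ) : Prop where
  prob : IsProbabilityMeasure μ
  good : Good μ ∅
  pot_eq : ∀ y, y ≠ x → pot μ y = log ‖x - y‖ + φ y
  nonneg : ∀ y, 0 ≤ φ y

/-- A local test: signed measure `μ - ν` of mass zero with potential `≤ 1` everywhere and `≤ 0` off
`R`, whose value at `log (mx L)` is at least `Λ`. -/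
def LocalTest (L : List ℂ[X]) (R : Set ℂ) (Λ : ℝ) : Prop :=
  ∃ μ ν : Measure ℂ, Good μ ∅ ∧ Good ν ∅ ∧ μ.real Set.univ = ν.real Set.univ ∧
    (∀ y, pot μ y ≤ pot ν y + R.indicator 1 y) ∧ Λ ≤ val L μ - val L ν

theorem exists_mem_of_ne_nil' {L : List ℂ[X]} (h : L ≠ []) :
    ∃ Q ∈ L, ∀ x ∈ (∅ : Set ℂ), Q.eval x ≠ 0 := by
  obtain ⟨Q, hQ⟩ := List.exists_mem_of_ne_nil L h
  exact ⟨Q, hQ, by simp⟩

theorem LocalTest.mono {L : List ℂ[X]} {R R' : Set ℂ} {Λ Λ' : ℝ} (h : LocalTest L R Λ)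
    (hR : R ⊆ R') (hΛ : Λ' ≤ Λ) : LocalTest L R' Λ' := by
  obtain ⟨μ, ν, h1, h2, h3, h4, h5⟩ := h
  refine ⟨μ, ν, h1, h2, h3, fun y => (h4 y).trans ?_, hΛ.trans h5⟩
  have : R.indicator (1 : ℂ → ℝ) y ≤ R'.indicator 1 y :=
    Set.indicator_le_indicator_of_subset hR (fun _ => zero_le_one) y
  linarith

/-- sum of disjoint indicators -/
theorem sum_indicator_le {κ : Type*} (K : Finset κ) (R : κ → Set ℂ)
    (hR : (K : Set κ).PairwiseDisjoint R) (y : ℂ) :
    ∑ k ∈ K, (R k).indicator (1 : ℂ → ℝ) y ≤ (⋃ k ∈ K, R k).indicator 1 y := by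
  classical
  by_cases h : ∃ k ∈ K, y ∈ R k
  · obtain ⟨k, hk, hy⟩ := h
    have h1 : ∑ j ∈ K, (R j).indicator (1 : ℂ → ℝ) y = (R k).indicator 1 y := by
      refine Finset.sum_eq_single_of_mem k hk fun j hj hjk => ?_
      refine Set.indicator_of_notMem (fun hyj => ?_) _
      exact Set.disjoint_left.1 (hR hj hk hjk) hyj hy
    rw [h1, Set.indicator_of_mem hy, Set.indicator_of_mem (by simp only [Set.mem_iUnion]; exact ⟨k, hk, hy⟩)]
  · have h1 : ∑ j ∈ K, (R j).indicator (1 : ℂ → ℝ) y = 0 := by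
      refine Finset.sum_eq_zero fun j hj => Set.indicator_of_notMem (fun hyj => ?_) _
      exact h ⟨j, hj, hyj⟩
    rw [h1]
    exact Set.indicator_nonneg (fun _ _ => zero_le_one) y

section combine

variable {κ : Type*} (K : Finset κ) (R : κ → Set ℂ) (Λ : κ → ℝ) (L : List ℂ[X])

/-- The total of local tests with disjoint regions is at most the degree. -/
theorem total_le (h0 : ∀ Q ∈ L, Q ≠ 0) (hL : L ≠ []) (hR : (K : Set κ).PairwiseDisjoint R)
    (h : ∀ k ∈ K, LocalTest L (R k) (Λ k)) {d : ℕ} (hd : ∀ Q ∈ L, Q.natDegree ≤ d) :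
    ∑ k ∈ K, Λ k ≤ d := by
  classical
  have hE := exists_mem_of_ne_nil' hL
  choose! μ ν h1 h2 h3 h4 h5 using h
  have hm := PL_measure (Good.sum K h1) (Good.sum K h2) Set.countable_empty
    (by rw [mass_sum K h1, mass_sum K h2]; exact Finset.sum_congr rfl h3)
    (κ := 1) zero_le_one (by
      intro y _
      have e1 := pot_sum K h1 y
      have e2 := pot_sum K h2 y
      rw [pot] at e1 e2
      rw [e1, e2]
      have : ∑ k ∈ K, pot (μ k) y ≤ ∑ k ∈ K, (pot (ν k) y + (R k).indicator 1 y) :=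
        Finset.sum_le_sum fun k hk => h4 k hk y
      rw [Finset.sum_add_distrib] at this
      have h6 := sum_indicator_le K R hR y
      have h7 : (⋃ k ∈ K, R k).indicator (1 : ℂ → ℝ) y ≤ 1 :=
        Set.indicator_le_self' (fun _ _ => zero_le_one) y
      linarith) d L h0 hd hE
  have e1 := val_sum K h0 hE h1
  have e2 := val_sum K h0 hE h2
  rw [val] at e1 e2
  rw [e1, e2] at hm
  have : ∑ k ∈ K, Λ k ≤ ∑ k ∈ K, (val L (μ k) - val L (ν k)) := Finset.sum_le_sum h5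
  rw [Finset.sum_sub_distrib] at this
  linarith

/-- Local tests with disjoint regions below a test. -/
theorem combine (h0 : ∀ Q ∈ L, Q ≠ 0) (hR : (K : Set κ).PairwiseDisjoint R)
    (h : ∀ k ∈ K, LocalTest L (R k) (Λ k)) {μ₀ : Measure ℂ} {x₀ : ℂ} {φ₀ : ℂ → ℝ}
    (ht : Tst μ₀ x₀ φ₀) (hx : 0 < mx L x₀) {κ₀ : ℝ} (hκ : 0 ≤ κ₀)
    (hφ : ∀ k ∈ K, ∀ y ∈ R k, y ≠ x₀ → κ₀ ≤ φ₀ y) :
    κ₀ * ∑ k ∈ K, Λ k ≤ val L μ₀ - log (mx L x₀) := by
  classical
  obtain ⟨Q, hQ, hQx⟩ : ∃ Q ∈ L, Q.eval x₀ ≠ 0 := by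
    by_contra hcon
    push Not at hcon
    have : mx L x₀ ≤ 0 := by
      clear h h0 hx
      induction L with
      | nil => simp
      | cons A L ih =>
        rw [mx_cons]
        refine max_le ?_ (ih fun Q hQ => hcon Q (List.mem_cons_of_mem _ hQ))
        rw [hcon A (by simp)]; simp
    linarith
  have hL : L ≠ [] := List.ne_nil_of_mem hQ
  have hE0 := exists_mem_of_ne_nil' hL
  have hE : ∃ Q ∈ L, ∀ x ∈ ({x₀} : Set ℂ), Q.eval x ≠ 0 := ⟨Q, hQ, by simpa using hQx⟩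
  choose! μ ν h1 h2 h3 h4 h5 using h
  have hprob := ht.prob
  have g1 : Good (∑ k ∈ K, μ k) ∅ := Good.sum K h1
  have g2 : Good (∑ k ∈ K, ν k) ∅ := Good.sum K h2
  have g1' : Good (ENNReal.ofReal κ₀ • ∑ k ∈ K, μ k) ∅ := g1.smul κ₀
  have g2' : Good (ENNReal.ofReal κ₀ • ∑ k ∈ K, ν k) ∅ := g2.smul κ₀
  have gd : Good (Measure.dirac x₀) {x₀} := Good.dirac x₀
  have gμ : Good (ENNReal.ofReal κ₀ • ∑ k ∈ K, μ k + Measure.dirac x₀) {x₀} :=
    (g1'.mono (Set.empty_subset _)).add gd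
  have gν : Good (ENNReal.ofReal κ₀ • ∑ k ∈ K, ν k + μ₀) ∅ := g2'.add ht.good
  have f1 := g1.fin
  have f2 := g2.fin
  have f1' := g1'.fin
  have f2' := g2'.fin
  have hm := PL_measure gμ gν (Set.countable_singleton _) (by
      rw [measureReal_add_apply, measureReal_add_apply, mass_smul hκ, mass_smul hκ,
        mass_sum K h1, mass_sum K h2, Finset.sum_congr rfl h3]
      simp)
    (κ := 0) le_rfl (by
      intro y hy
      have hy' : y ≠ x₀ := by simpa using hy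
      have e1 := pot_add (g1'.mono (Set.empty_subset {x₀})) gd y
      have e2 := pot_add g2' ht.good y
      rw [pot_smul hκ, pot_sum K h1] at e1
      rw [pot_smul hκ, pot_sum K h2, ht.pot_eq y hy'] at e2
      have e3 : pot (Measure.dirac x₀) y = log ‖x₀ - y‖ := by
        rw [pot, integral_dirac]
      rw [e3, pot] at e1
      rw [pot] at e2
      rw [e1, e2, add_zero]
      have h6 : ∑ k ∈ K, pot (μ k) y ≤ ∑ k ∈ K, (pot (ν k) y + (R k).indicator 1 y) :=
        Finset.sum_le_sum fun k hk => h4 k hk y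
      rw [Finset.sum_add_distrib] at h6
      have h7 := sum_indicator_le K R hR y
      have h8 : κ₀ * (⋃ k ∈ K, R k).indicator (1 : ℂ → ℝ) y ≤ φ₀ y := by
        by_cases hmem : y ∈ ⋃ k ∈ K, R k
        · rw [Set.indicator_of_mem hmem]
          simp only [Set.mem_iUnion] at hmem
          obtain ⟨k, hk, hyk⟩ := hmem
          simpa using hφ k hk y hyk hy'
        · rw [Set.indicator_of_notMem hmem, mul_zero]
          exact ht.nonneg y
      have h9 : κ₀ * ∑ k ∈ K, pot (μ k) y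
          ≤ κ₀ * (∑ k ∈ K, pot (ν k) y + (⋃ k ∈ K, R k).indicator (1 : ℂ → ℝ) y) :=
        mul_le_mul_of_nonneg_left (by linarith) hκ
      rw [mul_add] at h9
      linarith) ((L.map natDegree).sum) L h0
      (fun Q hQ => List.single_le_sum (by simp) _ (List.mem_map_of_mem hQ)) hE
  have e1 := val_add h0 hE (g1'.mono (Set.empty_subset {x₀})) gd
  have e2 := val_add h0 hE0 g2' ht.good
  rw [val_smul L hκ, val_sum K h0 hE0 h1] at e1
  rw [val_smul L hκ, val_sum K h0 hE0 h2] at e2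
  have e3 : val L (Measure.dirac x₀) = log (mx L x₀) := by
    rw [val, integral_dirac]
  rw [e3, val] at e1
  rw [val] at e2
  rw [e1, e2, zero_mul, add_zero] at hm
  have h10 : ∑ k ∈ K, Λ k ≤ ∑ k ∈ K, (val L (μ k) - val L (ν k)) := Finset.sum_le_sum h5
  have h11 := mul_le_mul_of_nonneg_left h10 hκ
  rw [Finset.sum_sub_distrib, mul_sub] at h11
  linarith

end combine

end Pool.Agent.Be22.Ker
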