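import Pool.Agent.W_be22fd_h77.Forced

/-!
# Monotonicity and total of `F`; generic item
-/

open Polynomial Real MeasureTheory

namespace Pool.Agent.Be22.Ker

open Pool.Agent.W_be22fd_h78 (Dom)

theorem dsc_subset {l r l' r' : ℝ} (h1 : l' ≤ l) (h2 : r ≤ r') : dsc l r ⊆ dsc l' r' := by
  apply Metric.closedBall_subset_closedBall'
  rw [dist_eq_norm, ← Complex.ofReal_sub, Complex.norm_real, Real.norm_eq_abs]
  have : |(l + r) / 2 - (l' + r') / 2| ≤ ((l - l') + (r' - r)) / 2 := by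
    rw [abs_le]; constructor <;> linarith
  linarith

theorem Nb_subset {a b a' b' : ℝ} (h1 : a' ≤ a) (h2 : b ≤ b') : Nb a b ⊆ Nb a' b' := by
  apply dsc_subset <;> linarith

theorem F_mono {S : Set ℝ[X]} {g a b a' b' : ℝ} (h : F S g a b) (h1 : a' ≤ a) (h2 : b ≤ b') :
    F S g a' b' := by
  obtain ⟨hfin, hnt, hab, hall⟩ := h
  refine ⟨hfin, hnt, by linarith, fun L hL μ x φ ht hx κ hκ y₁ y₂ hY hφ => ?_⟩
  refine hall L hL μ x φ ht hx κ hκ y₁ y₂ ?_ (fun y hy => hφ y (Nb_subset h1 h2 hy))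
  rcases hY with h | ⟨h, h'⟩ | ⟨h, h'⟩
  · exact Or.inl h
  · exact Or.inr (Or.inl ⟨by linarith, by linarith⟩)
  · exact Or.inr (Or.inr ⟨by linarith, by linarith⟩)

/-- the value of `φ` at `x` is free -/
theorem Tst.update {μ : Measure ℂ} {x : ℂ} {φ ψ : ℂ → ℝ} (h : Tst μ x φ)
    (h1 : ∀ y, y ≠ x → ψ y = φ y) (h2 : 0 ≤ ψ x) : Tst μ x ψ := by
  refine ⟨h.prob, h.good, fun y hy => by rw [h1 y hy]; exact h.pot_eq y hy, fun y => ?_⟩
  by_cases hy : y = x
  · rw [hy]; exact h2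
  · rw [h1 y hy]; exact h.nonneg y

/-- circle test -/
theorem tst_circle (x : ℝ) {R : ℝ} (hR : 0 < R) :
    Tst (arc.map fun θ => (x : ℂ) + circleMap 0 1 θ * R) x fun y => log⁺ (R / ‖(x : ℂ) - y‖) := by
  have := arc_prob
  have hm : Measurable fun θ => (x : ℂ) + circleMap 0 1 θ * R := by fun_prop
  have hR' : (R : ℂ) ≠ 0 := by exact_mod_cast hR.ne'
  have hlog : ∀ (y : ℂ) (θ : ℝ), log ‖(x : ℂ) + circleMap 0 1 θ * R - y‖
      = log ‖((x : ℂ) - y) + circleMap 0 1 θ * R‖ := by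
    intro y θ; congr 2; ring
  have hint : ∀ y : ℂ, Integrable (fun θ => log ‖(x : ℂ) + circleMap 0 1 θ * R - y‖) arc := by
    intro y
    simp only [hlog y]
    exact integrable_arc (circleIntegrable_log_add_mul ((x : ℂ) - y) R)
  refine ⟨Measure.isProbabilityMeasure_map hm.aemeasurable, ?_, fun y hy => ?_,
    fun y => posLog_nonneg⟩
  · refine Good.map hm (R := |x| + R) (Filter.Eventually.of_forall fun θ => ?_)
      (fun y _ => ?_) hint
    · refine (norm_add_le _ _).trans ?_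
      rw [norm_mul, Complex.norm_real, Complex.norm_real, Real.norm_eq_abs, Real.norm_eq_abs,
        abs_of_pos hR]
      simp
    · refine measure_mono_null (t := {θ | circleMap 0 1 θ ∈ ({(y - x) / R} : Set ℂ)})
        (fun θ hθ => ?_) (arc_null (Set.countable_singleton _))
      simp only [Set.mem_ofPred_eq, Set.mem_singleton_iff] at hθ ⊢
      rw [← hθ]
      field_simp
      ring
  · rw [pot, integral_map hm.aemeasurable (Measurable.aestronglyMeasurable (by fun_prop))]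
    simp only [hlog y]
    rw [integral_arc (fun c => log ‖((x : ℂ) - y) + c * R‖),
      circleAverage_log_add_mul _ _ (Or.inr hR'), Complex.norm_real, Real.norm_eq_abs,
      abs_of_pos hR]
    have hxy : 0 < ‖(x : ℂ) - y‖ := norm_pos_iff.2 (sub_ne_zero.2 (Ne.symm hy))
    rcases le_total ‖(x : ℂ) - y‖ R with h | h
    · rw [max_eq_right h, posLog_eq_log, log_div hR.ne' hxy.ne']
      · ring
      · rw [abs_of_nonneg (by positivity), le_div_iff₀ hxy]
        linarith
    · rw [max_eq_left h]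
      have : log⁺ (R / ‖(x : ℂ) - y‖) = 0 := by
        rw [posLog_eq_zero_iff, abs_of_nonneg (by positivity)]
        exact div_le_one_of_le₀ h hxy.le
      rw [this, add_zero]

theorem norm_eval_le {Q : ℂ[X]} {d : ℕ} (hd : Q.natDegree ≤ d) :
    ∃ C : ℝ, ∀ z : ℂ, ∀ T : ℝ, 1 ≤ T → ‖z‖ ≤ T → ‖Q.eval z‖ ≤ C * T ^ d := by
  refine ⟨∑ i ∈ Finset.range (d + 1), ‖Q.coeff i‖, fun z T hT hz => ?_⟩
  rw [eval_eq_sum_range' (Nat.lt_succ_of_le hd), Finset.sum_mul]
  refine (norm_sum_le _ _).trans (Finset.sum_le_sum fun i hi => ?_)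
  rw [norm_mul, norm_pow]
  refine mul_le_mul_of_nonneg_left ?_ (norm_nonneg _)
  calc ‖z‖ ^ i ≤ T ^ i := pow_le_pow_left₀ (norm_nonneg _) hz i
    _ ≤ T ^ d := pow_le_pow_right₀ hT (by simpa [Nat.lt_succ_iff] using hi)

theorem mx_le_pow {L : List ℂ[X]} {d : ℕ} (hd : ∀ Q ∈ L, Q.natDegree ≤ d) :
    ∃ C : ℝ, 1 ≤ C ∧ ∀ z : ℂ, ∀ T : ℝ, 1 ≤ T → ‖z‖ ≤ T → mx L z ≤ C * T ^ d := by
  induction L with
  | nil => exact ⟨1, le_rfl, fun z T hT _ => by simp; positivity⟩
  | cons A L ih =>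
    obtain ⟨C, hC1, hC⟩ := ih fun Q hQ => hd Q (List.mem_cons_of_mem _ hQ)
    obtain ⟨C', hC'⟩ := norm_eval_le (hd A (by simp))
    refine ⟨max C C', hC1.trans (le_max_left _ _), fun z T hT hz => ?_⟩
    have hp : 0 ≤ T ^ d := by positivity
    rw [mx_cons]
    exact max_le ((hC' z T hT hz).trans (mul_le_mul_of_nonneg_right (le_max_right _ _) hp))
      ((hC z T hT hz).trans (mul_le_mul_of_nonneg_right (le_max_left _ _) hp))

/-- **(END)** -/
theorem F_total {S : Set ℝ[X]} {g a b : ℝ} {d : ℕ} (hd : ∀ P ∈ S, P.natDegree ≤ d)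
    (h : F S g a b) : g ≤ d := by
  obtain ⟨hfin, hnt, hab, hall⟩ := h
  obtain ⟨L, hL⟩ := Diffs.exists_of_finite hfin
  have h0 := hL.ne_zero
  have hne := hL.ne_nil hnt
  have hE := exists_mem_of_ne_nil' hne
  obtain ⟨Q, hQ⟩ := List.exists_mem_of_ne_nil L hne
  -- a real point where `mx L` is positive
  obtain ⟨x, hx⟩ : ∃ x : ℝ, 0 < mx L (x : ℂ) := by
    have hfin' : {x : ℝ | Q.eval (x : ℂ) = 0}.Finite := by
      have : {x : ℝ | Q.eval (x : ℂ) = 0} = ((↑) : ℝ → ℂ) ⁻¹' {z | Q.IsRoot z} := rfl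
      rw [this]
      exact (finite_setOfPred_isRoot (h0 Q hQ)).preimage Complex.ofReal_injective.injOn
    obtain ⟨x, hx⟩ := hfin'.exists_notMem
    exact ⟨x, (norm_pos_iff.2 hx).trans_le (le_mx hQ _)⟩
  obtain ⟨C, hC1, hC⟩ := mx_le_pow (hL.natDegree_le hd)
  set C₁ : ℝ := |x - (a + b) / 2| + (b - a) + 1 with hC₁
  have hC₁0 : 0 < C₁ := by
    have := abs_nonneg (x - (a + b) / 2)
    linarith
  -- the inequality for the circle of radius `R`
  have key : ∀ R : ℝ, C₁ ≤ R → |x| + 1 ≤ R →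
      log (R / C₁) * g ≤ (log C + d * log (2 * R)) - log (mx L x) := by
    intro R hR hR'
    have hRpos : 0 < R := hC₁0.trans_le hR
    have ht := tst_circle x hRpos
    have h1 := hall L hL _ x _ ht hx (log (R / C₁)) (log_nonneg (by
        rw [le_div_iff₀ hC₁0]; linarith)) 1 0 (Or.inl (by norm_num)) (by
      intro y hy _ hyx
      have hxy : 0 < ‖(x : ℂ) - y‖ := norm_pos_iff.2 (sub_ne_zero.2 (Ne.symm hyx))
      have hle : ‖(x : ℂ) - y‖ ≤ C₁ := by
        rw [Nb, dsc, Metric.mem_closedBall, dist_eq_norm] at hy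
        have e1 : ((a - (b - a) / 16 + (b + (b - a) / 16)) / 2 : ℝ) = (a + b) / 2 := by ring
        have e2 : (b + (b - a) / 16 - (a - (b - a) / 16)) / 2 = 9 / 16 * (b - a) := by ring
        rw [e1, e2] at hy
        have e3 : (x : ℂ) - y = ((x - (a + b) / 2 : ℝ) : ℂ) - (y - (((a + b) / 2 : ℝ) : ℂ)) := by
          push_cast; ring
        rw [e3]
        refine (norm_sub_le _ _).trans ?_
        rw [Complex.norm_real, Real.norm_eq_abs]
        linarith
      refine le_trans ?_ (le_max_right _ _)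
      apply log_le_log (div_pos hRpos hC₁0)
      exact div_le_div_of_nonneg_left hRpos.le hxy hle)
    refine h1.trans ?_
    have h2 : val L (arc.map fun θ => (x : ℂ) + circleMap 0 1 θ * R) ≤ log C + d * log (2 * R) := by
      have := ht.prob
      have h3 : val L (arc.map fun θ => (x : ℂ) + circleMap 0 1 θ * R)
          ≤ ∫ _z, (log C + d * log (2 * R)) ∂(arc.map fun θ => (x : ℂ) + circleMap 0 1 θ * R) := by
        refine integral_mono_ae (ht.good.int_mx h0 hE) (integrable_const _) ?_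
        have hm : Measurable fun θ => (x : ℂ) + circleMap 0 1 θ * R := by fun_prop
        have hb : ∀ᵐ z ∂(arc.map fun θ => (x : ℂ) + circleMap 0 1 θ * R), ‖z‖ ≤ 2 * R := by
          rw [ae_map_iff hm.aemeasurable (measurableSet_le (by fun_prop) (by fun_prop))]
          refine Filter.Eventually.of_forall fun θ => ?_
          refine (norm_add_le _ _).trans ?_
          rw [norm_mul, Complex.norm_real, Complex.norm_real, Real.norm_eq_abs, Real.norm_eq_abs,
            abs_of_pos hRpos]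
          simp
          linarith
        filter_upwards [hb, ht.good.ae_mx_pos h0 hE] with z hz hzp
        have h2R : (1 : ℝ) ≤ 2 * R := by
          have := abs_nonneg x
          linarith
        calc log (mx L z) ≤ log (C * (2 * R) ^ d) := log_le_log hzp (hC z _ h2R hz)
          _ = _ := by
            rw [log_mul (by positivity) (by positivity), log_pow]
      rwa [integral_const, probReal_univ, one_smul] at h3
    linarith
  -- let `R → ∞`
  by_contra hcon
  rw [not_le] at hcon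
  set A : ℝ := log C + d * log 2 - log (mx L x) + log C₁ * g with hA
  -- `log R * (g - d) ≤ A` for all large `R`
  have key2 : ∀ R : ℝ, C₁ ≤ R → |x| + 1 ≤ R → log R * (g - d) ≤ A := by
    intro R hR hR'
    have hRpos : 0 < R := hC₁0.trans_le hR
    have h1 := key R hR hR'
    rw [log_div hRpos.ne' hC₁0.ne', log_mul two_ne_zero hRpos.ne'] at h1
    rw [hA]
    linarith
  have hlim : Filter.Tendsto (fun R : ℝ => log R * (g - d)) Filter.atTop Filter.atTop :=
    tendsto_log_atTop.atTop_mul_const (by linarith)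
  obtain ⟨R, hR1, hR2, hR3⟩ := ((hlim.eventually_gt_atTop A).and
    ((Filter.eventually_ge_atTop C₁).and (Filter.eventually_ge_atTop (|x| + 1)))).exists
  exact absurd (key2 R hR2 hR3) (not_le.2 hR1)

/-- **Generic item.**  A measurable family of tests over the open interval `(a, b)` with children. -/
theorem item {Ω : Type} [MeasurableSpace Ω] {P : Measure Ω} {a b : ℝ} {Z : ℝ × Ω → ℂ}
    {φ : ℝ → ℂ → ℝ} (h : Fam P a b Z φ) (hab : a < b) {S : Set ℝ[X]} {L : List ℂ[X]}
    (hL : Diffs S L) (hS : S.Nontrivial) {R : Set ℂ} {C : ℝ} (hC : 0 < C)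
    (hbar : ∀ y, ∫ x in a..b, φ x y ≤ (b - a) * (C * R.indicator 1 y)) {E g κ : ℝ} (hE : 0 < E)
    (hκ : 0 ≤ κ)
    (hchild : ∀ x ∈ Set.Ioo a b, ∃ S' ⊆ S, ∃ a' b', F S' g a' b' ∧ Dom E S S' x ∧
      ∃ y₁ y₂, Excl a' b' y₁ y₂ ∧ ∀ y ∈ Nb a' b', y ∉ dsc y₁ y₂ → y ≠ x → κ ≤ φ x y) :
    LocalTest L R ((κ * g - log E) / C) := by
  refine h.localTest hab hL.ne_zero (hL.ne_nil hS) hC hbar fun x hx hxp => ?_
  obtain ⟨S', hSS, a', b', hF, hD, y₁, y₂, hY, hφ⟩ := hchild x hx
  exact child_step hL hS hSS hF (h.tst ⟨hx.1.le, hx.2.le⟩) hxp hE hD hκ hY hφ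

end Pool.Agent.Be22.Ker
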