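import Pool.Agent.W_be22fd_h77.Phase

/-!
# The kernel lemma for `log max ‖P_a‖`

If two finite measures `μ, ν` on `ℂ` of the same mass satisfy
`∫ log ‖z - y‖ dμ ≤ ∫ log ‖z - y‖ dν + κ` for all `y`, then for polynomials `P_a` of degree `≤ d`
`∫ log max_a ‖P_a‖ dμ ≤ ∫ log max_a ‖P_a‖ dν + κ d`.
-/

open Polynomial Real MeasureTheory

namespace Pool.Agent.Be22.Ker

theorem log_norm_eval' (A : ℂ[X]) (hA : A ≠ 0) (y : ℂ) (hy : A.eval y ≠ 0) :
    log ‖A.eval y‖ = log ‖A.leadingCoeff‖ + (A.roots.map fun z => log ‖y - z‖).sum := by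
  classical
  have h1 : A.eval y = A.leadingCoeff * (A.roots.map fun z => y - z).prod := by
    conv_lhs => rw [(IsAlgClosed.splits A).eq_prod_roots]
    rw [eval_mul, eval_C, eval_multiset_prod, Multiset.map_map]
    simp
  have hroot : ∀ z ∈ A.roots, ‖y - z‖ ≠ 0 := by
    intro z hz h0
    rw [norm_eq_zero, sub_eq_zero] at h0
    subst h0
    exact hy (Polynomial.isRoot_of_mem_roots hz)
  have hlog : ∀ x ∈ A.roots.map (fun z => ‖y - z‖), x ≠ 0 := by
    intro x hx
    obtain ⟨z, hz, rfl⟩ := Multiset.mem_map.1 hx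
    exact hroot z hz
  have h2 : ‖(A.roots.map fun z => y - z).prod‖ = (A.roots.map fun z => ‖y - z‖).prod := by
    have := map_multiset_prod (normHom (α := ℂ)) (A.roots.map fun z => y - z)
    rw [Multiset.map_map] at this
    simpa using this
  have h3 : (A.roots.map fun z => ‖y - z‖).prod ≠ 0 := by
    intro h0
    rw [Multiset.prod_eq_zero_iff] at h0
    exact hlog 0 h0 rfl
  rw [h1, norm_mul, h2, log_mul (by simpa using hA) h3, log_multiset_prod hlog, Multiset.map_map]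
  rfl

/-- `mx L z = max_{P ∈ L} ‖P z‖` (`0` for the empty list) -/
noncomputable def mx : List ℂ[X] → ℂ → ℝ
  | [], _ => 0
  | A :: L, z => max ‖A.eval z‖ (mx L z)

@[simp] theorem mx_nil (z : ℂ) : mx [] z = 0 := rfl

theorem mx_cons (A : ℂ[X]) (L : List ℂ[X]) (z : ℂ) : mx (A :: L) z = max ‖A.eval z‖ (mx L z) := rfl

theorem mx_nonneg (L : List ℂ[X]) (z : ℂ) : 0 ≤ mx L z := by
  cases L with
  | nil => simp
  | cons A L => rw [mx_cons]; exact le_max_of_le_left (norm_nonneg _)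

theorem mx_continuous (L : List ℂ[X]) : Continuous (mx L) := by
  induction L with
  | nil => exact continuous_const
  | cons A L ih =>
    have : mx (A :: L) = fun z => max ‖A.eval z‖ (mx L z) := rfl
    rw [this]
    exact (A.continuous.norm).max ih

theorem le_mx {L : List ℂ[X]} {A : ℂ[X]} (h : A ∈ L) (z : ℂ) : ‖A.eval z‖ ≤ mx L z := by
  induction L with
  | nil => simp at h
  | cons B L ih =>
    rw [mx_cons]
    rcases List.mem_cons.1 h with rfl | h
    · exact le_max_left _ _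
    · exact (ih h).trans (le_max_right _ _)

theorem mx_pow {m : ℕ} (hm : m ≠ 0) (L : List ℂ[X]) (z : ℂ) :
    mx (L.map (· ^ m)) z = mx L z ^ m := by
  induction L with
  | nil => simp [hm]
  | cons A L ih =>
    rw [List.map_cons, mx_cons, mx_cons, ih, eval_pow, norm_pow]
    rcases le_total ‖A.eval z‖ (mx L z) with h | h
    · rw [max_eq_right h, max_eq_right (pow_le_pow_left₀ (norm_nonneg _) h m)]
    · rw [max_eq_left h, max_eq_left (pow_le_pow_left₀ (mx_nonneg _ _) h m)]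

/-- Measures for which log-potentials make sense; atoms allowed only in `E`. -/
structure Good (μ : Measure ℂ) (E : Set ℂ) : Prop where
  fin : IsFiniteMeasure μ
  bdd : ∃ R : ℝ, ∀ᵐ z ∂μ, ‖z‖ ≤ R
  noatom : ∀ y, y ∉ E → μ {y} = 0
  int : ∀ y, Integrable (fun z => log ‖z - y‖) μ

namespace Good

variable {μ : Measure ℂ} {E : Set ℂ}

theorem ae_ne (h : Good μ E) {Q : ℂ[X]} (hQ : Q ≠ 0) (hE : ∀ x ∈ E, Q.eval x ≠ 0) :
    ∀ᵐ z ∂μ, Q.eval z ≠ 0 := by
  classical
  have hsub : {z | ¬ Q.eval z ≠ 0} = ⋃ y ∈ (Q.roots.toFinset : Set ℂ), {y} := by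
    ext z
    simp [hQ]
  rw [ae_iff, hsub, measure_biUnion_null_iff (Finset.countable_toSet _)]
  intro y hy
  refine h.noatom y fun hyE => ?_
  rw [Finset.mem_coe, Multiset.mem_toFinset] at hy
  exact hE y hyE (isRoot_of_mem_roots hy)

theorem int_sum (h : Good μ E) (S : Multiset ℂ) :
    Integrable (fun z => (S.map fun y => log ‖z - y‖).sum) μ := by
  induction S using Multiset.induction with
  | empty => simp
  | cons a S ih =>
    simp only [Multiset.map_cons, Multiset.sum_cons]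
    exact (h.int a).add ih

theorem integral_sum (h : Good μ E) (S : Multiset ℂ) :
    ∫ z, (S.map fun y => log ‖z - y‖).sum ∂μ = (S.map fun y => ∫ z, log ‖z - y‖ ∂μ).sum := by
  induction S using Multiset.induction with
  | empty => simp
  | cons a S ih =>
    simp only [Multiset.map_cons, Multiset.sum_cons]
    rw [integral_add (h.int a) (h.int_sum S), ih]

theorem int_eval (h : Good μ E) {Q : ℂ[X]} (hQ : Q ≠ 0) (hE : ∀ x ∈ E, Q.eval x ≠ 0) :
    Integrable (fun z => log ‖Q.eval z‖) μ := by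
  have := h.fin
  have h1 : Integrable (fun z => log ‖Q.leadingCoeff‖ + (Q.roots.map fun y => log ‖z - y‖).sum) μ :=
    (integrable_const _).add (h.int_sum _)
  refine h1.congr ?_
  filter_upwards [h.ae_ne hQ hE] with z hz
  exact (log_norm_eval' Q hQ z hz).symm

theorem integral_eval (h : Good μ E) {Q : ℂ[X]} (hQ : Q ≠ 0) (hE : ∀ x ∈ E, Q.eval x ≠ 0) :
    ∫ z, log ‖Q.eval z‖ ∂μ = μ.real Set.univ * log ‖Q.leadingCoeff‖
      + (Q.roots.map fun y => ∫ z, log ‖z - y‖ ∂μ).sum := by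
  have := h.fin
  have h1 : ∫ z, log ‖Q.eval z‖ ∂μ
      = ∫ z, (log ‖Q.leadingCoeff‖ + (Q.roots.map fun y => log ‖z - y‖).sum) ∂μ := by
    refine integral_congr_ae ?_
    filter_upwards [h.ae_ne hQ hE] with z hz
    exact log_norm_eval' Q hQ z hz
  rw [h1, integral_add (integrable_const _) (h.int_sum _), integral_const, h.integral_sum,
    smul_eq_mul]

theorem bdd_cont (h : Good μ E) {f : ℂ → ℝ} (hf : Continuous f) : ∃ C : ℝ, ∀ᵐ z ∂μ, f z ≤ C := by
  obtain ⟨R, hR⟩ := h.bdd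
  obtain ⟨C, hC⟩ := (isCompact_closedBall (0 : ℂ) R).bddAbove_image hf.continuousOn
  refine ⟨C, ?_⟩
  filter_upwards [hR] with z hz
  exact hC ⟨z, by simpa using hz, rfl⟩

/-- hypothesis on lists -/
theorem ae_mx_pos (h : Good μ E) {L : List ℂ[X]} (h0 : ∀ Q ∈ L, Q ≠ 0)
    (hE : ∃ Q ∈ L, ∀ x ∈ E, Q.eval x ≠ 0) : ∀ᵐ z ∂μ, 0 < mx L z := by
  obtain ⟨Q, hQ, hQE⟩ := hE
  filter_upwards [h.ae_ne (h0 Q hQ) hQE] with z hz
  exact (norm_pos_iff.2 hz).trans_le (le_mx hQ z)

theorem int_mx (h : Good μ E) {L : List ℂ[X]} (h0 : ∀ Q ∈ L, Q ≠ 0)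
    (hE : ∃ Q ∈ L, ∀ x ∈ E, Q.eval x ≠ 0) : Integrable (fun z => log (mx L z)) μ := by
  have := h.fin
  obtain ⟨Q, hQ, hQE⟩ := hE
  obtain ⟨C, hC⟩ := h.bdd_cont (mx_continuous L)
  have hi := h.int_eval (h0 Q hQ) hQE
  refine Integrable.mono' (g := fun z => |log ‖Q.eval z‖| + log⁺ C) (hi.abs.add (integrable_const _))
    (measurable_log.comp (mx_continuous L).measurable).aestronglyMeasurable ?_
  filter_upwards [h.ae_ne (h0 Q hQ) hQE, hC] with z hz hzC
  have hp : 0 < ‖Q.eval z‖ := norm_pos_iff.2 hz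
  have hp2 : 0 < mx L z := hp.trans_le (le_mx hQ z)
  rw [Real.norm_eq_abs, abs_le]
  have h1 : log ‖Q.eval z‖ ≤ log (mx L z) := log_le_log hp (le_mx hQ z)
  have h2 : log (mx L z) ≤ log⁺ C :=
    (le_max_right _ _).trans (posLog_le_posLog hp2.le hzC)
  have h3 := neg_abs_le (log ‖Q.eval z‖)
  have h4 := abs_nonneg (log ‖Q.eval z‖)
  have h5 : 0 ≤ log⁺ C := posLog_nonneg
  constructor <;> linarith

end Good

variable {μ ν : Measure ℂ} {E : Set ℂ}

theorem PL_step (hμ : Good μ E) (hν : Good ν ∅) (hEc : E.Countable)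
    (hmass : μ.real Set.univ = ν.real Set.univ) {κ : ℝ} (hκ : 0 ≤ κ)
    (hpot : ∀ y, y ∉ E → ∫ z, log ‖z - y‖ ∂μ ≤ ∫ z, log ‖z - y‖ ∂ν + κ) (d : ℕ) (n : ℕ) :
    ∀ L : List ℂ[X], L.length = n + 1 → (∀ Q ∈ L, Q ≠ 0) → (∀ Q ∈ L, Q.natDegree ≤ d) →
      (∃ Q ∈ L, ∀ x ∈ E, Q.eval x ≠ 0) →
      ∫ z, log (mx L z) ∂μ ≤ ∫ z, log (mx L z) ∂ν + κ * d + n * (log 2 * ν.real Set.univ) := by
  have := hμ.fin
  have := hν.fin
  induction n with
  | zero =>
    intro L hL h0 hd hE
    obtain ⟨Q, rfl⟩ : ∃ Q, L = [Q] := List.length_eq_one_iff.1 (by simpa using hL)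
    have hQ0 : Q ≠ 0 := h0 Q (by simp)
    have hQd : Q.natDegree ≤ d := hd Q (by simp)
    have hQE : ∀ x ∈ E, Q.eval x ≠ 0 := by
      obtain ⟨Q', hQ', h⟩ := hE
      rw [List.mem_singleton] at hQ'
      subst hQ'
      exact h
    have e1 : ∀ z, mx [Q] z = ‖Q.eval z‖ := fun z => by
      rw [mx_cons, mx_nil, max_eq_left (norm_nonneg _)]
    simp only [e1]
    rw [hμ.integral_eval hQ0 hQE, hν.integral_eval hQ0 (by simp), hmass]
    have h2 : (Q.roots.map fun y => ∫ z, log ‖z - y‖ ∂μ).sum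
        ≤ (Q.roots.map fun y => (∫ z, log ‖z - y‖ ∂ν + κ)).sum := by
      apply Multiset.sum_map_le_sum_map
      intro y hy
      exact hpot y fun hyE => hQE y hyE (isRoot_of_mem_roots hy)
    rw [Multiset.sum_map_add] at h2
    simp only [Multiset.map_const', Multiset.sum_replicate, nsmul_eq_mul] at h2
    have h3 : (Q.roots.card : ℝ) * κ ≤ κ * d := by
      rw [IsAlgClosed.card_roots_eq_natDegree, mul_comm]
      exact mul_le_mul_of_nonneg_left (by exact_mod_cast hQd) hκ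
    push_cast
    linarith
  | succ n ih =>
    intro L hL h0 hd hE
    obtain ⟨A, B, L', rfl⟩ : ∃ A B L', L = A :: B :: L' := by
      match L, hL with
      | A :: B :: L', _ => exact ⟨A, B, L', rfl⟩
    have hA0 : A ≠ 0 := h0 A (by simp)
    have hB0 : B ≠ 0 := h0 B (by simp)
    -- exceptional set
    set S : Set ℂ := ((fun x => -(A.eval x / B.eval x)) '' E) ∪
      {-(A.coeff B.natDegree / B.leadingCoeff)} with hS
    have hSc : S.Countable := (hEc.image _).union (Set.countable_singleton _)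
    have hN : volume {θ : ℝ | circleMap 0 1 θ ∈ S} = 0 :=
      (hSc.preimage_circleMap 0 one_ne_zero).measure_zero _
    obtain ⟨Cb, hC⟩ := hμ.bdd_cont (f := fun z => ‖A.eval z‖ + ‖B.eval z‖ + mx L' z)
      ((A.continuous.norm.add B.continuous.norm).add (mx_continuous L'))
    have hpos : ∀ᵐ z ∂μ, 0 < max ‖A.eval z‖ (max ‖B.eval z‖ (mx L' z)) := hμ.ae_mx_pos h0 hE
    have hint : Integrable (fun z => log (max ‖A.eval z‖ (max ‖B.eval z‖ (mx L' z)))) μ :=
      hμ.int_mx h0 hE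
    obtain ⟨θ, hθ, hle⟩ := phase_step A.continuous.measurable B.continuous.measurable
      (mx_continuous L').measurable (mx_nonneg L') hC hpos hint _ hN
    set c : ℂ := circleMap 0 1 θ with hc
    have hcn : ‖c‖ = 1 := by simp [hc]
    have hc0 : c ≠ 0 := by
      intro h0; rw [h0] at hcn; simp at hcn
    have hcS : c ∉ S := hθ
    set G : ℂ[X] := A + C (c) * B with hG
    have hGe : ∀ z, G.eval z = A.eval z + c * B.eval z := by
      intro z; simp [hG]
    have hG0 : G ≠ 0 := by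
      intro h00
      apply hcS
      right
      have h1 : G.coeff B.natDegree = 0 := by rw [h00]; simp
      rw [hG, coeff_add, coeff_C_mul, coeff_natDegree] at h1
      have hl : B.leadingCoeff ≠ 0 := by simpa using hB0
      rw [Set.mem_singleton_iff]
      field_simp
      linear_combination h1
    have hGd : G.natDegree ≤ d := by
      refine (natDegree_add_le _ _).trans (max_le (hd A (by simp)) ?_)
      exact (natDegree_C_mul_le _ _).trans (hd B (by simp))
    have hGE : (∀ x ∈ E, A.eval x ≠ 0) ∨ (∀ x ∈ E, B.eval x ≠ 0) → ∀ x ∈ E, G.eval x ≠ 0 := by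
      intro hor x hx h00
      rw [hGe] at h00
      by_cases hBx : B.eval x = 0
      · rw [hBx, mul_zero, add_zero] at h00
        rcases hor with h | h
        · exact h x hx h00
        · exact h x hx hBx
      · apply hcS
        left
        refine ⟨x, hx, ?_⟩
        simp only
        field_simp
        linear_combination -h00
    have hl'' : (G :: L').length = n + 1 := by
      simp only [List.length_cons] at hL ⊢
      omega
    have h0'' : ∀ Q ∈ G :: L', Q ≠ 0 := by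
      intro Q hQ
      rcases List.mem_cons.1 hQ with rfl | hQ
      · exact hG0
      · exact h0 Q (by simp [hQ])
    have hd'' : ∀ Q ∈ G :: L', Q.natDegree ≤ d := by
      intro Q hQ
      rcases List.mem_cons.1 hQ with rfl | hQ
      · exact hGd
      · exact hd Q (by simp [hQ])
    have hE'' : ∃ Q ∈ G :: L', ∀ x ∈ E, Q.eval x ≠ 0 := by
      obtain ⟨Q, hQ, hQE⟩ := hE
      rcases List.mem_cons.1 hQ with rfl | hQ
      · exact ⟨G, by simp, hGE (Or.inl hQE)⟩
      · rcases List.mem_cons.1 hQ with rfl | hQ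
        · exact ⟨G, by simp, hGE (Or.inr hQE)⟩
        · exact ⟨Q, by simp [hQ], hQE⟩
    have hih := ih (G :: L') hl'' h0'' hd'' hE''
    have e1 : ∫ z, log (mx (A :: B :: L') z) ∂μ ≤ ∫ z, log (mx (G :: L') z) ∂μ := by
      have : ∀ z, mx (G :: L') z = max ‖A.eval z + c * B.eval z‖ (mx L' z) := by
        intro z; rw [mx_cons, hGe]
      simp only [this]
      exact hle
    have hνE : ∀ (M : List ℂ[X]), M ≠ [] → ∃ Q ∈ M, ∀ x ∈ (∅ : Set ℂ), Q.eval x ≠ 0 := by
      intro M hM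
      obtain ⟨Q, hQ⟩ := List.exists_mem_of_ne_nil M hM
      exact ⟨Q, hQ, by simp⟩
    have e2 : ∫ z, log (mx (G :: L') z) ∂ν
        ≤ ∫ z, (log (mx (A :: B :: L') z) + log 2) ∂ν := by
      refine integral_mono_ae (hν.int_mx h0'' (hνE _ (by simp)))
        ((hν.int_mx h0 (hνE _ (by simp))).add (integrable_const _)) ?_
      filter_upwards [hν.ae_mx_pos h0'' (hνE _ (by simp)), hν.ae_mx_pos h0 (hνE _ (by simp))]
        with z hz hz'
      have h1 : mx (G :: L') z ≤ mx (A :: B :: L') z * 2 := by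
        rw [mx_cons, hGe]
        have hAz : ‖A.eval z‖ ≤ mx (A :: B :: L') z := le_mx (by simp) z
        have hBz : ‖B.eval z‖ ≤ mx (A :: B :: L') z := le_mx (by simp) z
        have hLz : mx L' z ≤ mx (A :: B :: L') z := by
          rw [mx_cons, mx_cons]
          exact (le_max_right _ _).trans (le_max_right _ _)
        apply max_le
        · calc ‖A.eval z + c * B.eval z‖ ≤ ‖A.eval z‖ + ‖c * B.eval z‖ := norm_add_le _ _
            _ = ‖A.eval z‖ + ‖B.eval z‖ := by rw [norm_mul, hcn, one_mul]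
            _ ≤ _ := by linarith
        · linarith
      calc log (mx (G :: L') z) ≤ log (mx (A :: B :: L') z * 2) := log_le_log hz h1
        _ = _ := log_mul hz'.ne' two_ne_zero
    rw [integral_add (hν.int_mx h0 (hνE _ (by simp))) (integrable_const _), integral_const,
      smul_eq_mul] at e2
    push_cast
    linarith

/-- **Kernel lemma, measure form.** -/
theorem PL_measure (hμ : Good μ E) (hν : Good ν ∅) (hEc : E.Countable)
    (hmass : μ.real Set.univ = ν.real Set.univ) {κ : ℝ} (hκ : 0 ≤ κ)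
    (hpot : ∀ y, y ∉ E → ∫ z, log ‖z - y‖ ∂μ ≤ ∫ z, log ‖z - y‖ ∂ν + κ) (d : ℕ)
    (L : List ℂ[X]) (h0 : ∀ Q ∈ L, Q ≠ 0) (hd : ∀ Q ∈ L, Q.natDegree ≤ d)
    (hE : ∃ Q ∈ L, ∀ x ∈ E, Q.eval x ≠ 0) :
    ∫ z, log (mx L z) ∂μ ≤ ∫ z, log (mx L z) ∂ν + κ * d := by
  have hLne : L ≠ [] := by
    rintro rfl
    simp at hE
  obtain ⟨n, hn⟩ : ∃ n, L.length = n + 1 :=
    Nat.exists_eq_succ_of_ne_zero (by simpa using hLne)
  set D : ℝ := n * (log 2 * ν.real Set.univ) with hD
  have hD0 : 0 ≤ D := by positivity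
  have key : ∀ m : ℕ, m ≠ 0 →
      (m : ℝ) * ∫ z, log (mx L z) ∂μ ≤ m * ∫ z, log (mx L z) ∂ν + κ * (m * d) + D := by
    intro m hm
    have h1 := PL_step hμ hν hEc hmass hκ hpot (m * d) n (L.map (· ^ m)) (by simpa using hn)
      (by
        intro Q hQ
        obtain ⟨P, hP, rfl⟩ := List.mem_map.1 hQ
        exact pow_ne_zero _ (h0 P hP))
      (by
        intro Q hQ
        obtain ⟨P, hP, rfl⟩ := List.mem_map.1 hQ
        exact natDegree_pow_le.trans (Nat.mul_le_mul_left _ (hd P hP)))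
      (by
        obtain ⟨Q, hQ, hQE⟩ := hE
        refine ⟨Q ^ m, List.mem_map.2 ⟨Q, hQ, rfl⟩, fun x hx => ?_⟩
        rw [eval_pow]
        exact pow_ne_zero _ (hQE x hx))
    simp only [mx_pow hm, log_pow, integral_const_mul] at h1
    push_cast at h1
    linarith
  by_contra hcon
  rw [not_le] at hcon
  set δ : ℝ := ∫ z, log (mx L z) ∂μ - (∫ z, log (mx L z) ∂ν + κ * d) with hδ
  have hδ0 : 0 < δ := by linarith
  obtain ⟨m, hm⟩ := exists_nat_gt (D / δ)
  have hm0 : m ≠ 0 := by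
    rintro rfl
    have : 0 ≤ D / δ := by positivity
    push_cast at hm
    linarith
  have h2 := key m hm0
  rw [div_lt_iff₀ hδ0] at hm
  nlinarith [h2, hm]

end Pool.Agent.Be22.Ker
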